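import Mathlib

/-!
Bent functions on `ι → ZMod 2`: Walsh transform, dual function, Poisson summation,
translations, coordinate permutations, and the degree bound.
-/

set_option autoImplicit false
set_option linter.unusedSectionVars false

namespace Pool.Agent.Helper80Bent

open Finset

/-- The vector space of binary vectors. -/
abbrev V (ι : Type*) := ι → ZMod 2

/-- The sign `(-1)^v`. -/
def sgn (v : ZMod 2) : ℤ := (-1) ^ v.val

lemma sgn_add (u v : ZMod 2) : sgn (u + v) = sgn u * sgn v := by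
  revert u v; decide

@[simp] lemma sgn_zero : sgn 0 = 1 := by decide

@[simp] lemma sgn_one : sgn 1 = -1 := by decide

lemma sgn_mul_self (u : ZMod 2) : sgn u * sgn u = 1 := by
  revert u; decide

lemma sgn_sq (u : ZMod 2) : sgn u ^ 2 = 1 := by
  revert u; decide

lemma sgn_eq (u : ZMod 2) : sgn u = 1 - 2 * (u.val : ℤ) := by
  revert u; decide

lemma sgn_inj {u v : ZMod 2} (h : sgn u = sgn v) : u = v := by
  revert u v; decide

variable {ι : Type*} [Fintype ι]

/-- The standard inner product. -/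
def dot (a x : V ι) : ZMod 2 := ∑ i, a i * x i

lemma dot_comm (a x : V ι) : dot a x = dot x a := by
  unfold dot
  exact Finset.sum_congr rfl fun i _ => mul_comm _ _

lemma dot_add (a x y : V ι) : dot a (x + y) = dot a x + dot a y := by
  unfold dot
  rw [← Finset.sum_add_distrib]
  exact Finset.sum_congr rfl fun i _ => by simp [mul_add]

lemma add_dot (a b x : V ι) : dot (a + b) x = dot a x + dot b x := by
  rw [dot_comm, dot_add, dot_comm x a, dot_comm x b]

@[simp] lemma dot_zero (a : V ι) : dot a 0 = 0 := by simp [dot]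

@[simp] lemma zero_dot (a : V ι) : dot 0 a = 0 := by simp [dot]

variable [DecidableEq ι]

lemma dot_single (a : V ι) (e : ι) : dot a (Pi.single e 1) = a e := by
  unfold dot
  rw [Finset.sum_eq_single e]
  · simp
  · intro b _ hb
    simp [hb]
  · simp

/-- The Walsh transform. -/
def walsh (f : V ι → ZMod 2) (a : V ι) : ℤ := ∑ x, sgn (f x + dot a x)

/-- Bent functions. -/
def IsBent (f : V ι → ZMod 2) : Prop := ∀ a, walsh f a ^ 2 = 2 ^ (Fintype.card ι)

/-- The affine cube through `a` in the directions `S`. -/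
def cube (S : Finset ι) (a : V ι) : Finset (V ι) :=
  univ.filter (fun y => ∀ i, i ∉ S → y i = a i)

lemma mem_cube {S : Finset ι} {a y : V ι} : y ∈ cube S a ↔ ∀ i, i ∉ S → y i = a i := by
  simp [cube]

lemma card_cube (S : Finset ι) (a : V ι) : (cube S a).card = 2 ^ S.card := by
  have h : cube S a = Fintype.piFinset (fun i => if i ∈ S then (univ : Finset (ZMod 2)) else {a i}) := by
    ext y
    rw [mem_cube, Fintype.mem_piFinset]
    apply forall_congr'
    intro i
    by_cases hi : i ∈ S <;> simp [hi]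
  rw [h, Fintype.card_piFinset]
  have h2 : ∀ i ∈ (univ : Finset ι),
      (if i ∈ S then (univ : Finset (ZMod 2)) else {a i}).card = if i ∈ S then 2 else 1 := by
    intro i _
    by_cases hi : i ∈ S <;> simp [hi, ZMod.card]
  rw [Finset.prod_congr rfl h2, Finset.prod_ite]
  simp

lemma cube_univ (a : V ι) : cube (univ : Finset ι) a = univ := by
  ext y; simp [mem_cube]

lemma zmod2_add_one_ne (u : ZMod 2) : u + 1 ≠ u := by revert u; decide

lemma zmod2_ne_zero {u : ZMod 2} (h : u ≠ 0) : u = 1 := by revert u; decide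

lemma zmod2_add_self (u : ZMod 2) : u + u = 0 := by revert u; decide

lemma single_add_single (x : V ι) (e : ι) : x + Pi.single e 1 + Pi.single e 1 = x := by
  ext i
  by_cases h : i = e
  · subst h
    simp [add_assoc, zmod2_add_self]
  · simp [h]

lemma sum_cube_sgn (S : Finset ι) (a x : V ι) :
    ∑ y ∈ cube S a, sgn (dot y x) = if ∀ i ∈ S, x i = 0 then 2 ^ S.card * sgn (dot a x) else 0 := by
  split_ifs with h
  · have h1 : ∀ y ∈ cube S a, sgn (dot y x) = sgn (dot a x) := by
      intro y hy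
      congr 1
      unfold dot
      apply Finset.sum_congr rfl
      intro i _
      by_cases hi : i ∈ S
      · rw [h i hi]; simp
      · rw [(mem_cube.1 hy) i hi]
    rw [Finset.sum_congr rfl h1, Finset.sum_const, card_cube, nsmul_eq_mul]
    push_cast
    ring
  · push Not at h
    obtain ⟨e, he, hxe⟩ := h
    have hxe1 : x e = 1 := zmod2_ne_zero hxe
    apply Finset.sum_involution (fun y _ => y + Pi.single e 1)
    · intro y _
      rw [add_dot, dot_comm (Pi.single e 1) x, dot_single, hxe1, sgn_add]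
      simp
    · intro y _ _ h'
      have := congrFun h' e
      simp at this
    · intro y _
      exact single_add_single y e
    · intro y hy
      rw [mem_cube] at *
      intro i hi
      have : i ≠ e := fun h' => hi (h' ▸ he)
      simp [this, hy i hi]


/-- Poisson summation. -/
lemma poisson (f : V ι → ZMod 2) (S : Finset ι) (a : V ι) :
    ∑ y ∈ cube S a, walsh f y = 2 ^ S.card * ∑ x ∈ cube Sᶜ 0, sgn (f x) * sgn (dot a x) := by
  unfold walsh
  rw [Finset.sum_comm]
  have h1 : ∀ x ∈ (univ : Finset (V ι)), ∑ y ∈ cube S a, sgn (f x + dot y x)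
      = if x ∈ cube Sᶜ 0 then 2 ^ S.card * (sgn (f x) * sgn (dot a x)) else 0 := by
    intro x _
    have h2 : ∑ y ∈ cube S a, sgn (f x + dot y x) = sgn (f x) * ∑ y ∈ cube S a, sgn (dot y x) := by
      rw [Finset.mul_sum]
      exact Finset.sum_congr rfl fun y _ => sgn_add _ _
    rw [h2, sum_cube_sgn]
    have h3 : (∀ i ∈ S, x i = 0) ↔ x ∈ cube Sᶜ 0 := by
      rw [mem_cube]
      simp
    by_cases h : x ∈ cube Sᶜ 0
    · rw [if_pos (h3.2 h), if_pos h]
      ring
    · rw [if_neg (fun h' => h (h3.1 h')), if_neg h, mul_zero]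
  rw [Finset.sum_congr rfl h1, ← Finset.sum_filter, Finset.mul_sum]
  congr 1
  ext x
  simp

/-- Fourier inversion. -/
lemma inversion (f : V ι → ZMod 2) (y : V ι) :
    ∑ a, sgn (dot a y) * walsh f a = 2 ^ (Fintype.card ι) * sgn (f y) := by
  unfold walsh
  simp_rw [Finset.mul_sum]
  rw [Finset.sum_comm]
  have h1 : ∀ x ∈ (univ : Finset (V ι)), ∑ a, sgn (dot a y) * sgn (f x + dot a x)
      = if x = y then 2 ^ (Fintype.card ι) * sgn (f y) else 0 := by
    intro x _
    have h2 : ∑ a, sgn (dot a y) * sgn (f x + dot a x)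
        = sgn (f x) * ∑ a ∈ cube univ 0, sgn (dot a (x + y)) := by
      rw [cube_univ, Finset.mul_sum]
      apply Finset.sum_congr rfl
      intro a _
      rw [dot_add, sgn_add, sgn_add]
      ring
    rw [h2, sum_cube_sgn]
    by_cases h : x = y
    · subst h
      have h3 : ∀ i ∈ (univ : Finset ι), (x + x) i = 0 := fun i _ => by
        simp [zmod2_add_self]
      rw [if_pos h3, if_pos rfl]
      simp [mul_comm]
    · have h3 : ¬ ∀ i ∈ (univ : Finset ι), (x + y) i = 0 := by
        intro h'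
        apply h
        ext i
        have := h' i (Finset.mem_univ i)
        rw [Pi.add_apply] at this
        rw [eq_neg_of_add_eq_zero_left this]
        exact ZMod.neg_eq_self_mod_two (y i)
      rw [if_neg h3, if_neg h, mul_zero]
  rw [Finset.sum_congr rfl h1]
  simp

/-- The dual function (of a bent function in `2h` variables). -/
def dualf (h : ℕ) (f : V ι → ZMod 2) : V ι → ZMod 2 :=
  fun a => if walsh f a = 2 ^ h then 0 else 1

lemma walsh_eq {h : ℕ} (hn : Fintype.card ι = 2 * h) {f : V ι → ZMod 2} (hf : IsBent f)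
    (a : V ι) : walsh f a = 2 ^ h * sgn (dualf h f a) := by
  have h1 := hf a
  rw [hn, mul_comm 2 h, pow_mul] at h1
  have h2 : walsh f a = 2 ^ h ∨ walsh f a = -2 ^ h := sq_eq_sq_iff_eq_or_eq_neg.1 h1
  unfold dualf
  rcases h2 with h2 | h2
  · rw [if_pos h2, h2]; simp
  · by_cases h3 : walsh f a = 2 ^ h
    · rw [if_pos h3, h3]; simp
    · rw [if_neg h3, h2]; simp

lemma walsh_dualf {h : ℕ} (hn : Fintype.card ι = 2 * h) {f : V ι → ZMod 2} (hf : IsBent f)
    (y : V ι) : walsh (dualf h f) y = 2 ^ h * sgn (f y) := by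
  have h1 := inversion f y
  have h2 : ∑ a, sgn (dot a y) * walsh f a = 2 ^ h * walsh (dualf h f) y := by
    unfold walsh
    rw [Finset.mul_sum]
    apply Finset.sum_congr rfl
    intro a _
    have := walsh_eq hn hf a
    unfold walsh at this
    rw [this, sgn_add, dot_comm]
    ring
  rw [h2, hn, two_mul, pow_add, mul_assoc] at h1
  exact mul_left_cancel₀ (by positivity) h1

lemma isBent_dualf {h : ℕ} (hn : Fintype.card ι = 2 * h) {f : V ι → ZMod 2} (hf : IsBent f) :
    IsBent (dualf h f) := by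
  intro a
  rw [walsh_dualf hn hf, mul_pow, sgn_sq, hn, ← pow_mul]
  ring

lemma dualf_dualf {h : ℕ} (hn : Fintype.card ι = 2 * h) {f : V ι → ZMod 2} (hf : IsBent f) :
    dualf h (dualf h f) = f := by
  ext y
  apply sgn_inj
  have h1 := walsh_eq hn (isBent_dualf hn hf) y
  rw [walsh_dualf hn hf] at h1
  exact (mul_left_cancel₀ (by positivity) h1).symm

/-- The set of bent functions as a type. -/
abbrev B (ι : Type*) [Fintype ι] [DecidableEq ι] := {f : V ι → ZMod 2 // IsBent f}

noncomputable instance : Fintype (B ι) := Fintype.ofFinite _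

/-- The dual function is a bijection on bent functions. -/
def dualEquiv {h : ℕ} (hn : Fintype.card ι = 2 * h) : B ι ≃ B ι where
  toFun f := ⟨dualf h f.1, isBent_dualf hn f.2⟩
  invFun f := ⟨dualf h f.1, isBent_dualf hn f.2⟩
  left_inv f := Subtype.ext (dualf_dualf hn f.2)
  right_inv f := Subtype.ext (dualf_dualf hn f.2)

/-- Translation of a function by a unit vector. -/
def trans (e : ι) (f : V ι → ZMod 2) : V ι → ZMod 2 := fun x => f (x + Pi.single e 1)

lemma trans_trans (e : ι) (f : V ι → ZMod 2) : trans e (trans e f) = f := by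
  ext x
  unfold trans
  rw [single_add_single]

/-- Adding a unit vector as a permutation. -/
def addE (e : ι) : V ι ≃ V ι := Equiv.addRight (Pi.single e 1)

lemma addE_apply (e : ι) (x : V ι) : addE e x = x + Pi.single e 1 := rfl

lemma walsh_trans (e : ι) (f : V ι → ZMod 2) (a : V ι) :
    walsh (trans e f) a = sgn (a e) * walsh f a := by
  unfold walsh
  rw [Finset.mul_sum, ← Equiv.sum_comp (addE e)]
  apply Finset.sum_congr rfl
  intro x _
  rw [addE_apply]
  unfold trans
  rw [single_add_single, dot_add, dot_single, ← add_assoc, sgn_add _ (a e), mul_comm]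

lemma isBent_trans {f : V ι → ZMod 2} (hf : IsBent f) (e : ι) : IsBent (trans e f) := by
  intro a
  rw [walsh_trans, mul_pow, sgn_sq, one_mul, hf a]

/-- Translation as a bijection on bent functions. -/
def transEquiv (e : ι) : B ι ≃ B ι where
  toFun f := ⟨trans e f.1, isBent_trans f.2 e⟩
  invFun f := ⟨trans e f.1, isBent_trans f.2 e⟩
  left_inv f := Subtype.ext (trans_trans e f.1)
  right_inv f := Subtype.ext (trans_trans e f.1)

lemma dualf_trans {h : ℕ} (hn : Fintype.card ι = 2 * h) {f : V ι → ZMod 2} (hf : IsBent f)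
    (e : ι) (a : V ι) : dualf h (trans e f) a = dualf h f a + a e := by
  apply sgn_inj
  have h1 := walsh_eq hn (isBent_trans hf e) a
  rw [walsh_trans, walsh_eq hn hf, mul_left_comm] at h1
  rw [sgn_add, ← mul_left_cancel₀ (show (2 : ℤ) ^ h ≠ 0 by positivity) h1, mul_comm]

/-- Permuting coordinates. -/
def permf (σ : Equiv.Perm ι) (f : V ι → ZMod 2) : V ι → ZMod 2 := fun x => f (x ∘ σ)

/-- Precomposition with a permutation of the coordinates. -/
def precomp (σ : Equiv.Perm ι) : V ι ≃ V ι := Equiv.arrowCongr σ.symm (Equiv.refl _)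

lemma precomp_apply (σ : Equiv.Perm ι) (x : V ι) : precomp σ x = x ∘ σ := by
  ext i
  simp [precomp, Equiv.arrowCongr]

lemma walsh_permf (σ : Equiv.Perm ι) (f : V ι → ZMod 2) (a : V ι) :
    walsh (permf σ f) a = walsh f (a ∘ σ) := by
  unfold walsh
  rw [← Equiv.sum_comp (precomp σ) (fun x => sgn (f x + dot (a ∘ σ) x))]
  apply Finset.sum_congr rfl
  intro x _
  rw [precomp_apply]
  unfold permf
  congr 2
  unfold dot
  rw [← Equiv.sum_comp σ]
  rfl

lemma isBent_permf {f : V ι → ZMod 2} (hf : IsBent f) (σ : Equiv.Perm ι) : IsBent (permf σ f) := by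
  intro a
  rw [walsh_permf, hf]

/-- Permuting coordinates as a bijection on bent functions. -/
def permEquiv (σ : Equiv.Perm ι) : B ι ≃ B ι where
  toFun f := ⟨permf σ f.1, isBent_permf f.2 σ⟩
  invFun f := ⟨permf σ.symm f.1, isBent_permf f.2 σ.symm⟩
  left_inv f := Subtype.ext (by
    ext x
    simp [permf, Function.comp_assoc])
  right_inv f := Subtype.ext (by
    ext x
    simp [permf, Function.comp_assoc])

lemma sum_sgn_cube (g : V ι → ZMod 2) (S : Finset ι) (a : V ι) :
    ∑ y ∈ cube S a, sgn (g y) = 2 ^ S.card - 2 * ∑ y ∈ cube S a, ((g y).val : ℤ) := by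
  have : ∀ y ∈ cube S a, sgn (g y) = 1 - 2 * ((g y).val : ℤ) := fun y _ => sgn_eq _
  rw [Finset.sum_congr rfl this, Finset.sum_sub_distrib, ← Finset.mul_sum, Finset.sum_const,
    card_cube]
  simp

lemma sum_zmod_eq (g : V ι → ZMod 2) (A : Finset (V ι)) :
    ∑ y ∈ A, g y = ((∑ y ∈ A, ((g y).val : ℤ) : ℤ) : ZMod 2) := by
  push_cast
  apply Finset.sum_congr rfl
  intro y _
  simp

/-- The duality lemma: the restriction of `f` to the subspace `x_S = 0` determines the derivative of
the dual in the directions `S`. -/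
lemma dual_det {h : ℕ} (hn : Fintype.card ι = 2 * h) {f g : V ι → ZMod 2} (hf : IsBent f)
    (hg : IsBent g) (S : Finset ι) (hfg : ∀ x ∈ cube Sᶜ 0, f x = g x) (a : V ι) :
    ∑ y ∈ cube S a, dualf h f y = ∑ y ∈ cube S a, dualf h g y := by
  have h1 := poisson f S a
  have h2 := poisson g S a
  have h3 : ∑ x ∈ cube Sᶜ 0, sgn (f x) * sgn (dot a x)
      = ∑ x ∈ cube Sᶜ 0, sgn (g x) * sgn (dot a x) :=
    Finset.sum_congr rfl fun x hx => by rw [hfg x hx]
  rw [h3, ← h2] at h1
  rw [Finset.sum_congr rfl (fun y _ => walsh_eq hn hf y),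
    Finset.sum_congr rfl (fun y _ => walsh_eq hn hg y), ← Finset.mul_sum, ← Finset.mul_sum] at h1
  have h4 := mul_left_cancel₀ (show (2 : ℤ) ^ h ≠ 0 by positivity) h1
  rw [sum_sgn_cube, sum_sgn_cube] at h4
  have h5 : ∑ y ∈ cube S a, ((dualf h f y).val : ℤ) = ∑ y ∈ cube S a, ((dualf h g y).val : ℤ) := by
    linarith
  rw [sum_zmod_eq, sum_zmod_eq, h5]

/-- The degree bound. -/
lemma degree_bound {h : ℕ} (hn : Fintype.card ι = 2 * h) (hh : 2 ≤ h) {f : V ι → ZMod 2}
    (hf : IsBent f) (S : Finset ι) (hS : h < S.card) : ∑ y ∈ cube S 0, f y = 0 := by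
  have h1 := poisson (dualf h f) S 0
  rw [Finset.sum_congr rfl (fun y _ => walsh_dualf hn hf y), ← Finset.mul_sum] at h1
  simp only [zero_dot, sgn_zero, mul_one] at h1
  rw [sum_sgn_cube, sum_sgn_cube, Finset.card_compl, hn] at h1
  obtain ⟨s, hs⟩ : ∃ s, S.card = h + (s + 1) := ⟨S.card - h - 1, by omega⟩
  have hSle : S.card ≤ 2 * h := by rw [← hn]; exact Finset.card_le_univ S
  obtain ⟨t, ht⟩ : ∃ t, h = (s + 1) + t := ⟨h - (s + 1), by omega⟩
  rw [hs, show 2 * h - (h + (s + 1)) = t by omega] at h1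
  rw [pow_add 2 h (s + 1), mul_assoc] at h1
  have h2 := mul_left_cancel₀ (show (2 : ℤ) ^ h ≠ 0 by positivity) h1
  rw [sum_zmod_eq]
  set M := ∑ y ∈ cube S (0 : V ι), ((f y).val : ℤ)
  set M' := ∑ x ∈ cube Sᶜ (0 : V ι), ((dualf h f x).val : ℤ)
  obtain ⟨u, hu⟩ : ∃ u, h = u + 2 := ⟨h - 2, by omega⟩
  have h3 : M = 2 * (2 ^ u * 2 ^ (s + 1) - 2 ^ u + 2 ^ s * M') := by
    have e2 : (2 : ℤ) ^ (s + 1) * 2 ^ t = 2 * (2 * 2 ^ u) := by
      rw [← pow_add, ← ht, hu]
      ring
    have e3 : (2 : ℤ) ^ h * 2 ^ (s + 1) = 2 * (2 * (2 ^ u * 2 ^ (s + 1))) := by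
      rw [hu]; ring
    have e4 : (2 : ℤ) ^ (s + 1) * (2 ^ t - 2 * M') = 2 * (2 * 2 ^ u) - 2 * (2 * (2 ^ s * M')) := by
      rw [mul_sub, e2]; ring
    rw [e3, e4] at h2
    linarith
  rw [h3]
  push_cast
  have : (2 : ZMod 2) = 0 := by decide
  rw [this, zero_mul]

end Pool.Agent.Helper80Bent
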