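import Pool.Agent.Helper80_Bent.Ineq

/-!
The a priori bound for `Zv j r` coming from the degree bound for bent functions.
-/

set_option autoImplicit false
set_option linter.unusedSectionVars false

namespace Pool.Agent.Helper80Bent

open Finset

variable {ι : Type*} [Fintype ι] [DecidableEq ι]

/-- Indicator vector of a set of coordinates. -/
def ind (T : Finset ι) : V ι := fun i => if i ∈ T then 1 else 0

lemma sum_obs_ind (c : ι → Col) (hD : ∀ i, c i ≠ Col.D) (f : V ι → ZMod 2) (T : Finset ι)
    (hT : ∀ i ∈ T, c i = Col.F) :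
    ∑ T' ∈ T.powerset, obs c f (ind T')
      = ∑ y ∈ cube (T ∪ univ.filter (fun i => c i = Col.U)) 0, f y := by
  rw [← Finset.sum_fiberwise_of_maps_to (s := cube (T ∪ univ.filter (fun i => c i = Col.U)) 0)
    (t := T.powerset) (g := fun y => T.filter (fun i => y i ≠ 0))
    (fun y _ => by rw [Finset.mem_powerset]; exact Finset.filter_subset _ _)]
  apply Finset.sum_congr rfl
  intro T' hT'
  rw [Finset.mem_powerset] at hT'
  unfold obs
  apply Finset.sum_congr _ (fun _ _ => rfl)
  ext y
  simp only [Finset.mem_filter, Finset.mem_univ, true_and, mem_cube, Finset.mem_union]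
  constructor
  · intro h
    constructor
    · intro i hi
      push Not at hi
      have hc := h i
      have hDi := hD i
      have hi' : i ∉ T' := fun h' => hi.1 (hT' h')
      cases hci : c i <;> simp_all [ok, ind]
    · ext i
      rw [Finset.mem_filter]
      constructor
      · rintro ⟨hi, hy⟩
        have hc := h i
        rw [hT i hi] at hc
        by_contra hn
        apply hy
        rw [show y i = ind T' i from hc]
        simp [ind, hn]
      · intro hi
        refine ⟨hT' hi, ?_⟩
        have hc := h i
        rw [hT i (hT' hi)] at hc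
        rw [show y i = ind T' i from hc]
        simp [ind, hi]
  · rintro ⟨h1, h2⟩ i
    have hDi := hD i
    cases hci : c i
    · change y i = ind T' i
      by_cases hi : i ∈ T
      · by_cases hi' : i ∈ T'
        · have : i ∈ T.filter (fun i => y i ≠ 0) := by rw [h2]; exact hi'
          have := (Finset.mem_filter.1 this).2
          rw [zmod2_ne_zero this]
          simp [ind, hi']
        · have : i ∉ T.filter (fun i => y i ≠ 0) := by rw [h2]; exact hi'
          rw [Finset.mem_filter] at this
          push Not at this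
          rw [this hi]
          simp [ind, hi']
      · have hi' : i ∉ T' := fun h' => hi (hT' h')
        have := h1 i (by push Not; exact ⟨hi, by rw [hci]; decide⟩)
        rw [this]
        simp [ind, hi']
    · exact absurd hci hDi
    · change y i = 0
      have hi : i ∉ T := fun hi => by
        have := hT i hi
        rw [hci] at this
        exact absurd this (by decide)
      exact h1 i (by push Not; exact ⟨hi, by rw [hci]; decide⟩)
    · trivial

/-- A derivative of a bent function is determined by its values at points of low weight. -/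
lemma det_low {h : ℕ} (hn : Fintype.card ι = 2 * h) (hh : 2 ≤ h) (c : ι → Col)
    (hD : ∀ i, c i ≠ Col.D) (j : ℕ) (hj : cnt c Col.U = j) (f g : V ι → ZMod 2)
    (hf : IsBent f) (hg : IsBent g)
    (hfg : ∀ T : Finset ι, (∀ i ∈ T, c i = Col.F) → T.card ≤ h - j →
      obs c f (ind T) = obs c g (ind T)) : obs c f = obs c g := by
  have key : ∀ (m : ℕ) (T : Finset ι), T.card = m → (∀ i ∈ T, c i = Col.F) →
      obs c f (ind T) = obs c g (ind T) := by
    intro m
    induction m using Nat.strong_induction_on with
    | _ m ih =>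
      intro T hTm hT
      by_cases hle : T.card ≤ h - j
      · exact hfg T hT hle
      · push Not at hle
        have hdisj : Disjoint T (univ.filter (fun i => c i = Col.U)) := by
          rw [Finset.disjoint_left]
          intro i hi hi'
          have h1 := hT i hi
          have h2 := (Finset.mem_filter.1 hi').2
          rw [h1] at h2
          exact absurd h2 (by decide)
        have hcard : h < (T ∪ univ.filter (fun i => c i = Col.U)).card := by
          rw [Finset.card_union_of_disjoint hdisj]
          have : (univ.filter (fun i => c i = Col.U)).card = j := hj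
          omega
        have e1 := sum_obs_ind c hD f T hT
        have e2 := sum_obs_ind c hD g T hT
        rw [degree_bound hn hh hf _ hcard] at e1
        rw [degree_bound hn hh hg _ hcard, ← e1] at e2
        rw [← Finset.add_sum_erase _ _ (Finset.mem_powerset_self T),
          ← Finset.add_sum_erase _ _ (Finset.mem_powerset_self T)] at e2
        have e3 : ∑ T' ∈ T.powerset.erase T, obs c g (ind T')
            = ∑ T' ∈ T.powerset.erase T, obs c f (ind T') := by
          apply Finset.sum_congr rfl
          intro T' hT'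
          rw [Finset.mem_erase, Finset.mem_powerset] at hT'
          have hlt : T'.card < m := by
            rw [← hTm]
            exact Finset.card_lt_card (Finset.ssubset_iff_subset_ne.2 ⟨hT'.2, hT'.1⟩)
          exact (ih _ hlt T' rfl (fun i hi => hT i (hT'.2 hi))).symm
        rw [e3] at e2
        exact (add_right_cancel e2).symm
  ext x
  have hx : ∀ f : V ι → ZMod 2, obs c f x
      = obs c f (ind (univ.filter (fun i => c i = Col.F ∧ x i ≠ 0))) := by
    intro f
    apply obs_congr_x
    intro i hi
    rcases hi with hi | hi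
    · by_cases hxi : x i = 0
      · simp [ind, hxi]
      · have h1 := zmod2_ne_zero hxi
        simp [ind, hi, h1]
    · exact absurd hi (hD i)
  rw [hx f, hx g]
  exact key _ _ rfl (fun i hi => (Finset.mem_filter.1 hi).2.1)

lemma card_low (S : Finset ι) (t : ℕ) :
    (S.powerset.filter (fun T => T.card ≤ t)).card = ∑ i ∈ range (t + 1), (S.card).choose i := by
  rw [Finset.card_eq_sum_card_fiberwise (f := fun T : Finset ι => T.card) (t := range (t + 1))]
  · apply Finset.sum_congr rfl
    intro i hi
    rw [← Finset.card_powersetCard, Finset.powersetCard_eq_filter]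
    congr 1
    ext T
    simp only [Finset.mem_filter, Finset.mem_range] at *
    constructor
    · rintro ⟨⟨h1, _⟩, h3⟩
      exact ⟨h1, h3⟩
    · rintro ⟨h1, h3⟩
      exact ⟨⟨h1, by omega⟩, h3⟩
  · intro T hT
    have := (Finset.mem_filter.1 (Finset.mem_coe.1 hT)).2
    simp only [Finset.coe_range, Set.mem_Iio]
    omega

lemma halfway (m : ℕ) :
    2 * ∑ i ∈ range (m / 2 + 1), m.choose i ≤ 2 ^ m + m.choose (m / 2) := by
  obtain ⟨q, hq | hq⟩ := Nat.even_or_odd' m
  · subst hq
    rw [Nat.mul_div_cancel_left q (by norm_num)]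
    have h1 := Nat.sum_range_choose_halfway q
    rw [Finset.sum_range_succ'] at h1
    have h2 : ∑ k ∈ range q, (2 * q + 1).choose (k + 1)
        = ∑ k ∈ range q, (2 * q).choose k + ∑ k ∈ range q, (2 * q).choose (k + 1) := by
      rw [← Finset.sum_add_distrib]
      exact Finset.sum_congr rfl fun k _ => Nat.choose_succ_succ _ _
    have h3 := Finset.sum_range_succ' (fun i => (2 * q).choose i) q
    have h4 := Finset.sum_range_succ (fun i => (2 * q).choose i) q
    rw [h2] at h1
    simp only [Nat.choose_zero_right] at h1 h3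
    have h5 : (4 : ℕ) ^ q = 2 ^ (2 * q) := by rw [pow_mul]; norm_num
    rw [h5] at h1
    omega
  · subst hq
    have h0 : (2 * q + 1) / 2 = q := by omega
    rw [h0, Nat.sum_range_choose_halfway q]
    have h5 : (4 : ℕ) ^ q = 2 ^ (2 * q) := by rw [pow_mul]; norm_num
    rw [h5, pow_succ]
    omega

lemma sum_choose_le (m t r : ℕ) (h : 2 * t ≤ m + r) :
    2 * ∑ i ∈ range (t + 1), m.choose i ≤ 2 ^ m + (r + 2) * m.choose (m / 2) := by
  by_cases ht : t ≤ m / 2
  · calc 2 * ∑ i ∈ range (t + 1), m.choose i
        ≤ 2 * ∑ i ∈ range (m / 2 + 1), m.choose i := by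
          apply Nat.mul_le_mul_left
          apply Finset.sum_le_sum_of_subset
          intro i hi
          rw [Finset.mem_range] at *
          omega
      _ ≤ 2 ^ m + m.choose (m / 2) := halfway m
      _ ≤ 2 ^ m + (r + 2) * m.choose (m / 2) := by
          apply Nat.add_le_add_left
          exact Nat.le_mul_of_pos_left _ (by omega)
  · push Not at ht
    have h1 : ∑ i ∈ range (t + 1), m.choose i
        = ∑ i ∈ range (m / 2 + 1), m.choose i + ∑ i ∈ Finset.Ico (m / 2 + 1) (t + 1), m.choose i :=
      (Finset.sum_range_add_sum_Ico _ (by omega)).symm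
    have h2 : ∑ i ∈ Finset.Ico (m / 2 + 1) (t + 1), m.choose i
        ≤ (t - m / 2) * m.choose (m / 2) := by
      calc ∑ i ∈ Finset.Ico (m / 2 + 1) (t + 1), m.choose i
          ≤ ∑ i ∈ Finset.Ico (m / 2 + 1) (t + 1), m.choose (m / 2) :=
            Finset.sum_le_sum fun i _ => Nat.choose_le_middle i m
        _ = (t - m / 2) * m.choose (m / 2) := by
            rw [Finset.sum_const, Nat.card_Ico, smul_eq_mul]
            congr 1
            omega
    have h3 := halfway m
    have h4 : 2 * (t - m / 2) ≤ r + 1 := by omega
    have h5 : 2 * ((t - m / 2) * m.choose (m / 2)) ≤ (r + 1) * m.choose (m / 2) := by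
      rw [← mul_assoc]
      exact Nat.mul_le_mul_right _ h4
    calc 2 * ∑ i ∈ range (t + 1), m.choose i
        ≤ 2 * (∑ i ∈ range (m / 2 + 1), m.choose i) + 2 * ((t - m / 2) * m.choose (m / 2)) := by
          rw [h1, mul_add]
          exact Nat.add_le_add_left (Nat.mul_le_mul_left 2 h2) _
      _ ≤ (2 ^ m + m.choose (m / 2)) + (r + 1) * m.choose (m / 2) := Nat.add_le_add h3 h5
      _ = 2 ^ m + (r + 2) * m.choose (m / 2) := by ring

theorem Zv_le {h : ℕ} (hn : Fintype.card ι = 2 * h) (hh : 2 ≤ h) [Nonempty (B ι)] (j r : ℕ)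
    (hj : j ≤ h) (hjr : j + r ≤ 2 * h) :
    Zv ι j r ≤ ((2 : ℝ) ^ (2 * h) / 2 ^ (j + r + 1) + (r + 2) / 2 * (Nat.centralBinom h : ℝ))
      * Real.log 2 := by
  classical
  obtain ⟨c, h1, h2, h3⟩ := exists_col (ι := ι) j 0 r (by omega)
  have hs := cnt_sum c
  have hcD : ∀ i, c i ≠ Col.D := by
    intro i hi
    have : 0 < cnt c Col.D := Finset.card_pos.2 ⟨i, by simp [hi]⟩
    omega
  rw [← Zv_eq c h1 h3]
  set S : Finset ι := univ.filter (fun i => c i = Col.F) with hS
  have hSc : S.card = 2 * h - j - r := by
    have : S.card = cnt c Col.F := rfl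
    omega
  set L := S.powerset.filter (fun T => T.card ≤ h - j) with hL
  have hent : entZ c ≤ Real.log (Fintype.card (L → ZMod 2)) := by
    refine le_trans ?_ (ent_le_log_card (fun (f : B ι) (T : L) => obs c f.1 (ind T.1)))
    apply ent_mono
    intro f g hfg
    apply det_low hn hh c hcD j h1 f.1 g.1 f.2 g.2
    intro T hT hTc
    have hTL : T ∈ L := by
      rw [hL, Finset.mem_filter, Finset.mem_powerset]
      refine ⟨fun i hi => ?_, hTc⟩
      rw [hS, Finset.mem_filter]
      exact ⟨Finset.mem_univ i, hT i hi⟩
    exact congrFun hfg ⟨T, hTL⟩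
  refine le_trans hent ?_
  rw [Fintype.card_fun, ZMod.card, Fintype.card_coe, Nat.cast_pow, Real.log_pow]
  push_cast
  apply mul_le_mul_of_nonneg_right _ (Real.log_nonneg (by norm_num))
  rw [hL, card_low, hSc]
  have h4 := sum_choose_le (2 * h - j - r) (h - j) r (by omega)
  have h5 : (2 * h - j - r).choose ((2 * h - j - r) / 2) ≤ Nat.centralBinom h :=
    le_trans (Nat.choose_le_choose _ (by omega)) (Nat.choose_le_centralBinom _ _)
  have h6 : 2 * ∑ i ∈ range (h - j + 1), (2 * h - j - r).choose i
      ≤ 2 ^ (2 * h - j - r) + (r + 2) * Nat.centralBinom h :=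
    le_trans h4 (Nat.add_le_add_left (Nat.mul_le_mul_left _ h5) _)
  have h7 : (2 : ℝ) * ((∑ i ∈ range (h - j + 1), (2 * h - j - r).choose i : ℕ) : ℝ)
      ≤ 2 ^ (2 * h - j - r) + (r + 2) * (Nat.centralBinom h : ℝ) := by
    exact_mod_cast h6
  have h8 : (2 : ℝ) ^ (2 * h) = 2 ^ (2 * h - j - r) * 2 ^ (j + r) := by
    rw [← pow_add]
    congr 1
    omega
  have h9 : (2 : ℝ) ^ (2 * h) / 2 ^ (j + r + 1) = 2 ^ (2 * h - j - r) / 2 := by
    rw [h8, pow_succ]
    field_simp
  rw [h9]
  linarith

theorem Zv_zero [Nonempty (B ι)] : Zv ι 0 0 = Real.log (Fintype.card (B ι)) := by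
  have h1 : cnt (fun _ : ι => Col.F) Col.U = 0 := by
    unfold cnt
    simp
  have h2 : cnt (fun _ : ι => Col.F) Col.R = 0 := by
    unfold cnt
    simp
  rw [← Zv_eq _ h1 h2]
  apply ent_inj
  intro f g hfg
  apply Subtype.ext
  ext x
  have := congrFun hfg x
  simp only at this
  rw [obs_noU _ (by simp), obs_noU _ (by simp)] at this
  simpa using this

end Pool.Agent.Helper80Bent
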