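import Mathlib

/-!
Linear programming certificate (generated by exact integer arithmetic).
-/

set_option autoImplicit false

namespace Pool.Agent.Helper80Bent

set_option maxHeartbeats 4000000 in
theorem cert (Z : ℕ → ℕ → ℝ) (W : ℕ → ℕ → ℕ → ℝ) (N E : ℝ)
    (hZnn : ∀ j r, 0 ≤ Z j r) (hWnn : ∀ j d r, 0 ≤ W j d r)
    (hZW : ∀ j d r, j + d + r ≤ 13 → Z j r ≤ W j d r + Z j (r + d))
    (hZs : ∀ j r, j + 1 + r ≤ 13 → Z j r ≤ Z j (r + 1) + Z (j + 1) r)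
    (hZm : ∀ j r, j + r + 1 ≤ 13 → Z j (r + 1) ≤ Z j r)
    (hWm : ∀ j d r, j + d + r + 1 ≤ 13 → W j d (r + 1) ≤ W j d r)
    (hWs : ∀ j d r, j + (d + 1) + r ≤ 13 → W j (d + 1) r + W (j + 1) d r ≤ W j d r + Z (j + 1) r)
    (hWZ : ∀ j d r, j + d + r ≤ 13 → W j d r ≤ Z j r)
    (hW1 : ∀ j r, j + 1 + r ≤ 13 → W j 1 r = Z (j + 1) r)
    (hdual : ∀ r, r + 1 ≤ 13 → Z 0 r + Z (r + 1) 0 ≤ 2 * Z 0 (r + 1))
    (hB : ∀ j r, j + r ≤ 13 → Z j r ≤ N / 2 ^ (j + r + 1) + E) :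
    512 * Z 0 0 ≤ (130655 / 1024) * N + 185584 * E := by
  have h0 : W 1 2 0 ≤ Z 1 0 := hWZ 1 2 0 (by norm_num)
  have h1 : W 5 6 0 ≤ Z 5 0 := hWZ 5 6 0 (by norm_num)
  have h2 : W 6 2 4 ≤ Z 6 4 := hWZ 6 2 4 (by norm_num)
  have h3 : W 2 2 1 ≤ W 2 2 0 := hWm 2 2 0 (by norm_num)
  have h4 : W 2 3 1 ≤ W 2 3 0 := hWm 2 3 0 (by norm_num)
  have h5 : W 3 2 2 ≤ W 3 2 1 := hWm 3 2 1 (by norm_num)
  have h6 : W 3 3 1 ≤ W 3 3 0 := hWm 3 3 0 (by norm_num)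
  have h7 : W 4 2 3 ≤ W 4 2 2 := hWm 4 2 2 (by norm_num)
  have h8 : W 4 3 2 ≤ W 4 3 1 := hWm 4 3 1 (by norm_num)
  have h9 : W 4 4 1 ≤ W 4 4 0 := hWm 4 4 0 (by norm_num)
  have h10 : W 4 5 1 ≤ W 4 5 0 := hWm 4 5 0 (by norm_num)
  have h11 : W 5 2 3 ≤ W 5 2 2 := hWm 5 2 2 (by norm_num)
  have h12 : W 5 2 4 ≤ W 5 2 3 := hWm 5 2 3 (by norm_num)
  have h13 : W 5 3 3 ≤ W 5 3 2 := hWm 5 3 2 (by norm_num)
  have h14 : W 5 4 2 ≤ W 5 4 1 := hWm 5 4 1 (by norm_num)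
  have h15 : W 5 5 1 ≤ W 5 5 0 := hWm 5 5 0 (by norm_num)
  have h16 : W 5 6 1 ≤ W 5 6 0 := hWm 5 6 0 (by norm_num)
  have h17 : W 6 2 1 ≤ W 6 2 0 := hWm 6 2 0 (by norm_num)
  have h18 : W 6 2 2 ≤ W 6 2 1 := hWm 6 2 1 (by norm_num)
  have h19 : W 6 2 3 ≤ W 6 2 2 := hWm 6 2 2 (by norm_num)
  have h20 : W 6 2 4 ≤ W 6 2 3 := hWm 6 2 3 (by norm_num)
  have h21 : W 6 2 5 ≤ W 6 2 4 := hWm 6 2 4 (by norm_num)
  have h22 : W 6 3 3 ≤ W 6 3 2 := hWm 6 3 2 (by norm_num)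
  have h23 : W 6 3 4 ≤ W 6 3 3 := hWm 6 3 3 (by norm_num)
  have h24 : W 6 4 2 ≤ W 6 4 1 := hWm 6 4 1 (by norm_num)
  have h25 : W 6 4 3 ≤ W 6 4 2 := hWm 6 4 2 (by norm_num)
  have h26 : W 6 5 2 ≤ W 6 5 1 := hWm 6 5 1 (by norm_num)
  have h27 : W 6 6 1 ≤ W 6 6 0 := hWm 6 6 0 (by norm_num)
  have h28 : W 0 2 0 + W 1 1 0 ≤ W 0 1 0 + Z 1 0 := hWs 0 1 0 (by norm_num)
  have h29 : W 0 2 1 + W 1 1 1 ≤ W 0 1 1 + Z 1 1 := hWs 0 1 1 (by norm_num)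
  have h30 : W 0 3 0 + W 1 2 0 ≤ W 0 2 0 + Z 1 0 := hWs 0 2 0 (by norm_num)
  have h31 : W 0 4 0 + W 1 3 0 ≤ W 0 3 0 + Z 1 0 := hWs 0 3 0 (by norm_num)
  have h32 : W 0 5 0 + W 1 4 0 ≤ W 0 4 0 + Z 1 0 := hWs 0 4 0 (by norm_num)
  have h33 : W 1 2 0 + W 2 1 0 ≤ W 1 1 0 + Z 2 0 := hWs 1 1 0 (by norm_num)
  have h34 : W 1 2 1 + W 2 1 1 ≤ W 1 1 1 + Z 2 1 := hWs 1 1 1 (by norm_num)
  have h35 : W 1 2 2 + W 2 1 2 ≤ W 1 1 2 + Z 2 2 := hWs 1 1 2 (by norm_num)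
  have h36 : W 1 2 3 + W 2 1 3 ≤ W 1 1 3 + Z 2 3 := hWs 1 1 3 (by norm_num)
  have h37 : W 1 2 4 + W 2 1 4 ≤ W 1 1 4 + Z 2 4 := hWs 1 1 4 (by norm_num)
  have h38 : W 1 3 0 + W 2 2 0 ≤ W 1 2 0 + Z 2 0 := hWs 1 2 0 (by norm_num)
  have h39 : W 1 3 1 + W 2 2 1 ≤ W 1 2 1 + Z 2 1 := hWs 1 2 1 (by norm_num)
  have h40 : W 1 3 3 + W 2 2 3 ≤ W 1 2 3 + Z 2 3 := hWs 1 2 3 (by norm_num)
  have h41 : W 1 4 0 + W 2 3 0 ≤ W 1 3 0 + Z 2 0 := hWs 1 3 0 (by norm_num)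
  have h42 : W 1 4 1 + W 2 3 1 ≤ W 1 3 1 + Z 2 1 := hWs 1 3 1 (by norm_num)
  have h43 : W 1 5 0 + W 2 4 0 ≤ W 1 4 0 + Z 2 0 := hWs 1 4 0 (by norm_num)
  have h44 : W 1 6 0 + W 2 5 0 ≤ W 1 5 0 + Z 2 0 := hWs 1 5 0 (by norm_num)
  have h45 : W 1 7 0 + W 2 6 0 ≤ W 1 6 0 + Z 2 0 := hWs 1 6 0 (by norm_num)
  have h46 : W 2 2 1 + W 3 1 1 ≤ W 2 1 1 + Z 3 1 := hWs 2 1 1 (by norm_num)
  have h47 : W 2 2 2 + W 3 1 2 ≤ W 2 1 2 + Z 3 2 := hWs 2 1 2 (by norm_num)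
  have h48 : W 2 2 3 + W 3 1 3 ≤ W 2 1 3 + Z 3 3 := hWs 2 1 3 (by norm_num)
  have h49 : W 2 2 4 + W 3 1 4 ≤ W 2 1 4 + Z 3 4 := hWs 2 1 4 (by norm_num)
  have h50 : W 2 3 1 + W 3 2 1 ≤ W 2 2 1 + Z 3 1 := hWs 2 2 1 (by norm_num)
  have h51 : W 2 3 2 + W 3 2 2 ≤ W 2 2 2 + Z 3 2 := hWs 2 2 2 (by norm_num)
  have h52 : W 2 3 3 + W 3 2 3 ≤ W 2 2 3 + Z 3 3 := hWs 2 2 3 (by norm_num)
  have h53 : W 2 3 4 + W 3 2 4 ≤ W 2 2 4 + Z 3 4 := hWs 2 2 4 (by norm_num)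
  have h54 : W 2 4 0 + W 3 3 0 ≤ W 2 3 0 + Z 3 0 := hWs 2 3 0 (by norm_num)
  have h55 : W 2 4 1 + W 3 3 1 ≤ W 2 3 1 + Z 3 1 := hWs 2 3 1 (by norm_num)
  have h56 : W 2 5 0 + W 3 4 0 ≤ W 2 4 0 + Z 3 0 := hWs 2 4 0 (by norm_num)
  have h57 : W 2 5 1 + W 3 4 1 ≤ W 2 4 1 + Z 3 1 := hWs 2 4 1 (by norm_num)
  have h58 : W 2 6 0 + W 3 5 0 ≤ W 2 5 0 + Z 3 0 := hWs 2 5 0 (by norm_num)
  have h59 : W 2 7 0 + W 3 6 0 ≤ W 2 6 0 + Z 3 0 := hWs 2 6 0 (by norm_num)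
  have h60 : W 3 2 2 + W 4 1 2 ≤ W 3 1 2 + Z 4 2 := hWs 3 1 2 (by norm_num)
  have h61 : W 3 2 3 + W 4 1 3 ≤ W 3 1 3 + Z 4 3 := hWs 3 1 3 (by norm_num)
  have h62 : W 3 2 4 + W 4 1 4 ≤ W 3 1 4 + Z 4 4 := hWs 3 1 4 (by norm_num)
  have h63 : W 3 3 2 + W 4 2 2 ≤ W 3 2 2 + Z 4 2 := hWs 3 2 2 (by norm_num)
  have h64 : W 3 3 3 + W 4 2 3 ≤ W 3 2 3 + Z 4 3 := hWs 3 2 3 (by norm_num)
  have h65 : W 3 3 4 + W 4 2 4 ≤ W 3 2 4 + Z 4 4 := hWs 3 2 4 (by norm_num)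
  have h66 : W 3 4 1 + W 4 3 1 ≤ W 3 3 1 + Z 4 1 := hWs 3 3 1 (by norm_num)
  have h67 : W 3 4 3 + W 4 3 3 ≤ W 3 3 3 + Z 4 3 := hWs 3 3 3 (by norm_num)
  have h68 : W 3 5 0 + W 4 4 0 ≤ W 3 4 0 + Z 4 0 := hWs 3 4 0 (by norm_num)
  have h69 : W 3 5 1 + W 4 4 1 ≤ W 3 4 1 + Z 4 1 := hWs 3 4 1 (by norm_num)
  have h70 : W 3 6 0 + W 4 5 0 ≤ W 3 5 0 + Z 4 0 := hWs 3 5 0 (by norm_num)
  have h71 : W 3 7 0 + W 4 6 0 ≤ W 3 6 0 + Z 4 0 := hWs 3 6 0 (by norm_num)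
  have h72 : W 4 2 3 + W 5 1 3 ≤ W 4 1 3 + Z 5 3 := hWs 4 1 3 (by norm_num)
  have h73 : W 4 2 4 + W 5 1 4 ≤ W 4 1 4 + Z 5 4 := hWs 4 1 4 (by norm_num)
  have h74 : W 4 2 5 + W 5 1 5 ≤ W 4 1 5 + Z 5 5 := hWs 4 1 5 (by norm_num)
  have h75 : W 4 3 2 + W 5 2 2 ≤ W 4 2 2 + Z 5 2 := hWs 4 2 2 (by norm_num)
  have h76 : W 4 3 3 + W 5 2 3 ≤ W 4 2 3 + Z 5 3 := hWs 4 2 3 (by norm_num)
  have h77 : W 4 3 4 + W 5 2 4 ≤ W 4 2 4 + Z 5 4 := hWs 4 2 4 (by norm_num)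
  have h78 : W 4 4 2 + W 5 3 2 ≤ W 4 3 2 + Z 5 2 := hWs 4 3 2 (by norm_num)
  have h79 : W 4 4 3 + W 5 3 3 ≤ W 4 3 3 + Z 5 3 := hWs 4 3 3 (by norm_num)
  have h80 : W 4 5 1 + W 5 4 1 ≤ W 4 4 1 + Z 5 1 := hWs 4 4 1 (by norm_num)
  have h81 : W 4 6 0 + W 5 5 0 ≤ W 4 5 0 + Z 5 0 := hWs 4 5 0 (by norm_num)
  have h82 : W 4 6 1 + W 5 5 1 ≤ W 4 5 1 + Z 5 1 := hWs 4 5 1 (by norm_num)
  have h83 : W 4 7 0 + W 5 6 0 ≤ W 4 6 0 + Z 5 0 := hWs 4 6 0 (by norm_num)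
  have h84 : W 5 2 5 + W 6 1 5 ≤ W 5 1 5 + Z 6 5 := hWs 5 1 5 (by norm_num)
  have h85 : W 5 3 4 + W 6 2 4 ≤ W 5 2 4 + Z 6 4 := hWs 5 2 4 (by norm_num)
  have h86 : W 5 4 2 + W 6 3 2 ≤ W 5 3 2 + Z 6 2 := hWs 5 3 2 (by norm_num)
  have h87 : W 5 4 3 + W 6 3 3 ≤ W 5 3 3 + Z 6 3 := hWs 5 3 3 (by norm_num)
  have h88 : W 5 5 1 + W 6 4 1 ≤ W 5 4 1 + Z 6 1 := hWs 5 4 1 (by norm_num)
  have h89 : W 5 5 2 + W 6 4 2 ≤ W 5 4 2 + Z 6 2 := hWs 5 4 2 (by norm_num)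
  have h90 : W 5 6 1 + W 6 5 1 ≤ W 5 5 1 + Z 6 1 := hWs 5 5 1 (by norm_num)
  have h91 : W 5 7 0 + W 6 6 0 ≤ W 5 6 0 + Z 6 0 := hWs 5 6 0 (by norm_num)
  have h92 : W 6 2 0 + W 7 1 0 ≤ W 6 1 0 + Z 7 0 := hWs 6 1 0 (by norm_num)
  have h93 : Z 0 2 ≤ W 0 1 2 + Z 0 3 := hZW 0 1 2 (by norm_num)
  have h94 : Z 0 1 ≤ W 0 2 1 + Z 0 3 := hZW 0 2 1 (by norm_num)
  have h95 : Z 0 0 ≤ W 0 4 0 + Z 0 4 := hZW 0 4 0 (by norm_num)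
  have h96 : Z 0 0 ≤ W 0 5 0 + Z 0 5 := hZW 0 5 0 (by norm_num)
  have h97 : Z 1 1 ≤ W 1 2 1 + Z 1 3 := hZW 1 2 1 (by norm_num)
  have h98 : Z 1 2 ≤ W 1 2 2 + Z 1 4 := hZW 1 2 2 (by norm_num)
  have h99 : Z 1 4 ≤ W 1 2 4 + Z 1 6 := hZW 1 2 4 (by norm_num)
  have h100 : Z 1 3 ≤ W 1 3 3 + Z 1 6 := hZW 1 3 3 (by norm_num)
  have h101 : Z 1 1 ≤ W 1 4 1 + Z 1 5 := hZW 1 4 1 (by norm_num)
  have h102 : Z 1 0 ≤ W 1 7 0 + Z 1 7 := hZW 1 7 0 (by norm_num)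
  have h103 : Z 2 5 ≤ W 2 1 5 + Z 2 6 := hZW 2 1 5 (by norm_num)
  have h104 : Z 2 6 ≤ W 2 1 6 + Z 2 7 := hZW 2 1 6 (by norm_num)
  have h105 : Z 2 2 ≤ W 2 2 2 + Z 2 4 := hZW 2 2 2 (by norm_num)
  have h106 : Z 2 4 ≤ W 2 2 4 + Z 2 6 := hZW 2 2 4 (by norm_num)
  have h107 : Z 2 2 ≤ W 2 3 2 + Z 2 5 := hZW 2 3 2 (by norm_num)
  have h108 : Z 2 3 ≤ W 2 3 3 + Z 2 6 := hZW 2 3 3 (by norm_num)
  have h109 : Z 2 4 ≤ W 2 3 4 + Z 2 7 := hZW 2 3 4 (by norm_num)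
  have h110 : Z 2 1 ≤ W 2 4 1 + Z 2 5 := hZW 2 4 1 (by norm_num)
  have h111 : Z 2 1 ≤ W 2 5 1 + Z 2 6 := hZW 2 5 1 (by norm_num)
  have h112 : Z 2 0 ≤ W 2 7 0 + Z 2 7 := hZW 2 7 0 (by norm_num)
  have h113 : Z 3 5 ≤ W 3 1 5 + Z 3 6 := hZW 3 1 5 (by norm_num)
  have h114 : Z 3 2 ≤ W 3 3 2 + Z 3 5 := hZW 3 3 2 (by norm_num)
  have h115 : Z 3 4 ≤ W 3 3 4 + Z 3 7 := hZW 3 3 4 (by norm_num)
  have h116 : Z 3 3 ≤ W 3 4 3 + Z 3 7 := hZW 3 4 3 (by norm_num)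
  have h117 : Z 3 1 ≤ W 3 5 1 + Z 3 6 := hZW 3 5 1 (by norm_num)
  have h118 : Z 3 0 ≤ W 3 7 0 + Z 3 7 := hZW 3 7 0 (by norm_num)
  have h119 : Z 4 6 ≤ W 4 1 6 + Z 4 7 := hZW 4 1 6 (by norm_num)
  have h120 : Z 4 5 ≤ W 4 2 5 + Z 4 7 := hZW 4 2 5 (by norm_num)
  have h121 : Z 4 2 ≤ W 4 3 2 + Z 4 5 := hZW 4 3 2 (by norm_num)
  have h122 : Z 4 4 ≤ W 4 3 4 + Z 4 7 := hZW 4 3 4 (by norm_num)
  have h123 : Z 4 2 ≤ W 4 4 2 + Z 4 6 := hZW 4 4 2 (by norm_num)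
  have h124 : Z 4 3 ≤ W 4 4 3 + Z 4 7 := hZW 4 4 3 (by norm_num)
  have h125 : Z 4 1 ≤ W 4 6 1 + Z 4 7 := hZW 4 6 1 (by norm_num)
  have h126 : Z 4 0 ≤ W 4 7 0 + Z 4 7 := hZW 4 7 0 (by norm_num)
  have h127 : Z 5 5 ≤ W 5 2 5 + Z 5 7 := hZW 5 2 5 (by norm_num)
  have h128 : Z 5 4 ≤ W 5 3 4 + Z 5 7 := hZW 5 3 4 (by norm_num)
  have h129 : Z 5 2 ≤ W 5 4 2 + Z 5 6 := hZW 5 4 2 (by norm_num)
  have h130 : Z 5 3 ≤ W 5 4 3 + Z 5 7 := hZW 5 4 3 (by norm_num)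
  have h131 : Z 5 2 ≤ W 5 5 2 + Z 5 7 := hZW 5 5 2 (by norm_num)
  have h132 : Z 5 1 ≤ W 5 6 1 + Z 5 7 := hZW 5 6 1 (by norm_num)
  have h133 : Z 5 0 ≤ W 5 7 0 + Z 5 7 := hZW 5 7 0 (by norm_num)
  have h134 : Z 6 5 ≤ W 6 2 5 + Z 6 7 := hZW 6 2 5 (by norm_num)
  have h135 : Z 6 4 ≤ W 6 3 4 + Z 6 7 := hZW 6 3 4 (by norm_num)
  have h136 : Z 6 3 ≤ W 6 4 3 + Z 6 7 := hZW 6 4 3 (by norm_num)
  have h137 : Z 6 2 ≤ W 6 5 2 + Z 6 7 := hZW 6 5 2 (by norm_num)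
  have h138 : Z 6 1 ≤ W 6 6 1 + Z 6 7 := hZW 6 6 1 (by norm_num)
  have h139 : Z 7 1 ≤ Z 7 0 := hZm 7 0 (by norm_num)
  have h140 : Z 7 2 ≤ Z 7 1 := hZm 7 1 (by norm_num)
  have h141 : Z 7 3 ≤ Z 7 2 := hZm 7 2 (by norm_num)
  have h142 : Z 7 4 ≤ Z 7 3 := hZm 7 3 (by norm_num)
  have h143 : Z 7 5 ≤ Z 7 4 := hZm 7 4 (by norm_num)
  have h144 : Z 7 6 ≤ Z 7 5 := hZm 7 5 (by norm_num)
  have h145 : Z 1 2 ≤ Z 1 3 + Z 2 2 := hZs 1 2 (by norm_num)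
  have h146 : Z 1 5 ≤ Z 1 6 + Z 2 5 := hZs 1 5 (by norm_num)
  have h147 : Z 1 6 ≤ Z 1 7 + Z 2 6 := hZs 1 6 (by norm_num)
  have h148 : Z 3 6 ≤ Z 3 7 + Z 4 6 := hZs 3 6 (by norm_num)
  have h149 : Z 5 6 ≤ Z 5 7 + Z 6 6 := hZs 5 6 (by norm_num)
  have h150 : Z 6 6 ≤ Z 6 7 + Z 7 6 := hZs 6 6 (by norm_num)
  have h151 : Z 0 0 + Z 1 0 ≤ 2 * Z 0 1 := hdual 0 (by norm_num)
  have h152 : Z 0 1 + Z 2 0 ≤ 2 * Z 0 2 := hdual 1 (by norm_num)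
  have h153 : Z 0 2 + Z 3 0 ≤ 2 * Z 0 3 := hdual 2 (by norm_num)
  have h154 : Z 0 3 + Z 4 0 ≤ 2 * Z 0 4 := hdual 3 (by norm_num)
  have h155 : Z 0 4 + Z 5 0 ≤ 2 * Z 0 5 := hdual 4 (by norm_num)
  have h156 : Z 0 5 + Z 6 0 ≤ 2 * Z 0 6 := hdual 5 (by norm_num)
  have h157 : Z 0 6 + Z 7 0 ≤ 2 * Z 0 7 := hdual 6 (by norm_num)
  have e0 : W 0 1 0 = Z 1 0 := hW1 0 0 (by norm_num)
  have e1 : W 0 1 1 = Z 1 1 := hW1 0 1 (by norm_num)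
  have e2 : W 0 1 2 = Z 1 2 := hW1 0 2 (by norm_num)
  have e3 : W 1 1 0 = Z 2 0 := hW1 1 0 (by norm_num)
  have e4 : W 1 1 1 = Z 2 1 := hW1 1 1 (by norm_num)
  have e5 : W 1 1 2 = Z 2 2 := hW1 1 2 (by norm_num)
  have e6 : W 1 1 3 = Z 2 3 := hW1 1 3 (by norm_num)
  have e7 : W 1 1 4 = Z 2 4 := hW1 1 4 (by norm_num)
  have e8 : W 2 1 0 = Z 3 0 := hW1 2 0 (by norm_num)
  have e9 : W 2 1 1 = Z 3 1 := hW1 2 1 (by norm_num)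
  have e10 : W 2 1 2 = Z 3 2 := hW1 2 2 (by norm_num)
  have e11 : W 2 1 3 = Z 3 3 := hW1 2 3 (by norm_num)
  have e12 : W 2 1 4 = Z 3 4 := hW1 2 4 (by norm_num)
  have e13 : W 2 1 5 = Z 3 5 := hW1 2 5 (by norm_num)
  have e14 : W 2 1 6 = Z 3 6 := hW1 2 6 (by norm_num)
  have e15 : W 3 1 1 = Z 4 1 := hW1 3 1 (by norm_num)
  have e16 : W 3 1 2 = Z 4 2 := hW1 3 2 (by norm_num)
  have e17 : W 3 1 3 = Z 4 3 := hW1 3 3 (by norm_num)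
  have e18 : W 3 1 4 = Z 4 4 := hW1 3 4 (by norm_num)
  have e19 : W 3 1 5 = Z 4 5 := hW1 3 5 (by norm_num)
  have e20 : W 4 1 2 = Z 5 2 := hW1 4 2 (by norm_num)
  have e21 : W 4 1 3 = Z 5 3 := hW1 4 3 (by norm_num)
  have e22 : W 4 1 4 = Z 5 4 := hW1 4 4 (by norm_num)
  have e23 : W 4 1 5 = Z 5 5 := hW1 4 5 (by norm_num)
  have e24 : W 4 1 6 = Z 5 6 := hW1 4 6 (by norm_num)
  have e25 : W 5 1 3 = Z 6 3 := hW1 5 3 (by norm_num)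
  have e26 : W 5 1 4 = Z 6 4 := hW1 5 4 (by norm_num)
  have e27 : W 5 1 5 = Z 6 5 := hW1 5 5 (by norm_num)
  have e28 : W 6 1 0 = Z 7 0 := hW1 6 0 (by norm_num)
  have e29 : W 6 1 5 = Z 7 5 := hW1 6 5 (by norm_num)
  have e30 : W 7 1 0 = Z 8 0 := hW1 7 0 (by norm_num)
  have b0 : Z 0 3 ≤ N / 16 + E := by
    have := hB 0 3 (by norm_num)
    norm_num at this
    exact this
  have b1 : Z 0 7 ≤ N / 256 + E := by
    have := hB 0 7 (by norm_num)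
    norm_num at this
    exact this
  have b2 : Z 1 1 ≤ N / 8 + E := by
    have := hB 1 1 (by norm_num)
    norm_num at this
    exact this
  have b3 : Z 1 7 ≤ N / 512 + E := by
    have := hB 1 7 (by norm_num)
    norm_num at this
    exact this
  have b4 : Z 2 0 ≤ N / 8 + E := by
    have := hB 2 0 (by norm_num)
    norm_num at this
    exact this
  have b5 : Z 2 5 ≤ N / 256 + E := by
    have := hB 2 5 (by norm_num)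
    norm_num at this
    exact this
  have b6 : Z 2 7 ≤ N / 1024 + E := by
    have := hB 2 7 (by norm_num)
    norm_num at this
    exact this
  have b7 : Z 3 1 ≤ N / 32 + E := by
    have := hB 3 1 (by norm_num)
    norm_num at this
    exact this
  have b8 : Z 3 2 ≤ N / 64 + E := by
    have := hB 3 2 (by norm_num)
    norm_num at this
    exact this
  have b9 : Z 3 3 ≤ N / 128 + E := by
    have := hB 3 3 (by norm_num)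
    norm_num at this
    exact this
  have b10 : Z 3 6 ≤ N / 1024 + E := by
    have := hB 3 6 (by norm_num)
    norm_num at this
    exact this
  have b11 : Z 3 7 ≤ N / 2048 + E := by
    have := hB 3 7 (by norm_num)
    norm_num at this
    exact this
  have b12 : Z 4 0 ≤ N / 32 + E := by
    have := hB 4 0 (by norm_num)
    norm_num at this
    exact this
  have b13 : Z 4 7 ≤ N / 4096 + E := by
    have := hB 4 7 (by norm_num)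
    norm_num at this
    exact this
  have b14 : Z 5 1 ≤ N / 128 + E := by
    have := hB 5 1 (by norm_num)
    norm_num at this
    exact this
  have b15 : Z 5 4 ≤ N / 1024 + E := by
    have := hB 5 4 (by norm_num)
    norm_num at this
    exact this
  have b16 : Z 5 7 ≤ N / 8192 + E := by
    have := hB 5 7 (by norm_num)
    norm_num at this
    exact this
  have b17 : Z 6 5 ≤ N / 4096 + E := by
    have := hB 6 5 (by norm_num)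
    norm_num at this
    exact this
  have b18 : Z 6 7 ≤ N / 16384 + E := by
    have := hB 6 7 (by norm_num)
    norm_num at this
    exact this
  have b19 : Z 7 4 ≤ N / 4096 + E := by
    have := hB 7 4 (by norm_num)
    norm_num at this
    exact this
  have p0 : 0 ≤ Z 0 2 := hZnn 0 2
  have p1 : 0 ≤ Z 0 4 := hZnn 0 4
  have p2 : 0 ≤ Z 2 1 := hZnn 2 1
  have p3 : 0 ≤ Z 4 1 := hZnn 4 1
  have p4 : 0 ≤ Z 6 6 := hZnn 6 6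
  have p5 : 0 ≤ Z 7 0 := hZnn 7 0
  have p6 : 0 ≤ Z 8 0 := hZnn 8 0
  have q0 : 0 ≤ W 2 2 1 := hWnn 2 2 1
  have q1 : 0 ≤ W 2 5 0 := hWnn 2 5 0
  have q2 : 0 ≤ W 3 2 3 := hWnn 3 2 3
  have q3 : 0 ≤ W 5 2 4 := hWnn 5 2 4
  have q4 : 0 ≤ W 5 6 1 := hWnn 5 6 1
  have q5 : 0 ≤ W 6 2 5 := hWnn 6 2 5
  linear_combination 1 * h0
    + 1 * h1
    + 1 * h2
    + 317 * h3
    + 119 * h4
    + 625 * h5
    + 405 * h6
    + 365 * h7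
    + 1405 * h8
    + 958 * h9
    + 395 * h10
    + 2086 * h11
    + 3815 * h12
    + 1864 * h13
    + 2883 * h14
    + 2073 * h15
    + 810 * h16
    + 2689 * h17
    + 2689 * h18
    + 2689 * h19
    + 2689 * h20
    + 11796 * h21
    + 1492 * h22
    + 6122 * h23
    + 148 * h24
    + 4303 * h25
    + 5647 * h26
    + 5795 * h27
    + 207 * h28
    + 163 * h29
    + 207 * h30
    + 207 * h31
    + 29 * h32
    + 109 * h33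
    + 325 * h34
    + 495 * h35
    + 173 * h36
    + 495 * h37
    + 317 * h38
    + 256 * h39
    + 173 * h40
    + 524 * h41
    + 256 * h42
    + 553 * h43
    + 553 * h44
    + 553 * h45
    + 53 * h46
    + 1094 * h47
    + 346 * h48
    + 1325 * h49
    + 625 * h50
    + 759 * h51
    + 519 * h52
    + 152 * h53
    + 405 * h54
    + 1000 * h55
    + 958 * h56
    + 668 * h57
    + 1510 * h58
    + 2063 * h59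
    + 1067 * h60
    + 519 * h61
    + 2155 * h62
    + 2451 * h63
    + 1037 * h64
    + 2307 * h65
    + 1405 * h66
    + 1037 * h67
    + 958 * h68
    + 2073 * h69
    + 2468 * h70
    + 4531 * h71
    + 327 * h72
    + 2985 * h73
    + 3932 * h74
    + 2086 * h75
    + 1729 * h76
    + 5292 * h77
    + 3356 * h78
    + 2766 * h79
    + 3031 * h80
    + 2073 * h81
    + 3426 * h82
    + 6604 * h83
    + 7864 * h84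
    + 9106 * h85
    + 1492 * h86
    + 4630 * h87
    + 148 * h88
    + 4155 * h89
    + 5647 * h90
    + 5795 * h91
    + 2689 * h92
    + 599 * h93
    + 163 * h94
    + 178 * h95
    + 29 * h96
    + 69 * h97
    + 495 * h98
    + 495 * h99
    + 173 * h100
    + 256 * h101
    + 553 * h102
    + 1346 * h103
    + 4630 * h104
    + 335 * h105
    + 1173 * h106
    + 759 * h107
    + 519 * h108
    + 152 * h109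
    + 332 * h110
    + 668 * h111
    + 2063 * h112
    + 3797 * h113
    + 2451 * h114
    + 2307 * h115
    + 1037 * h116
    + 2073 * h117
    + 4531 * h118
    + 13855 * h119
    + 3932 * h120
    + 135 * h121
    + 5292 * h122
    + 3356 * h123
    + 2766 * h124
    + 3426 * h125
    + 6604 * h126
    + 7864 * h127
    + 9106 * h128
    + 220 * h129
    + 4630 * h130
    + 4155 * h131
    + 6456 * h132
    + 5795 * h133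
    + 11795 * h134
    + 6122 * h135
    + 4303 * h136
    + 5647 * h137
    + 5795 * h138
    + 6211 * h139
    + 6211 * h140
    + 6211 * h141
    + 6211 * h142
    + 6212 * h143
    + 14076 * h144
    + 104 * h145
    + 256 * h146
    + 924 * h147
    + 10499 * h148
    + 14075 * h149
    + 14076 * h150
    + 305 * h151
    + 447 * h152
    + 296 * h153
    + 1352 * h154
    + 2883 * h155
    + 5795 * h156
    + 11590 * h157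
    + (207) * e0
    + (163) * e1
    + (599) * e2
    + (-98) * e3
    + (162) * e4
    + (495) * e5
    + (173) * e6
    + (495) * e7
    + (-109) * e8
    + (-272) * e9
    + (599) * e10
    + (173) * e11
    + (830) * e12
    + (1346) * e13
    + (4630) * e14
    + (-53) * e15
    + (-27) * e16
    + (173) * e17
    + (830) * e18
    + (3797) * e19
    + (-1067) * e20
    + (-192) * e21
    + (830) * e22
    + (3932) * e23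
    + (13855) * e24
    + (-327) * e25
    + (-2985) * e26
    + (3932) * e27
    + (2689) * e28
    + (-7864) * e29
    + (-2689) * e30
    + 2 * b0
    + 23180 * b1
    + 1 * b2
    + 1477 * b3
    + 1 * b4
    + 1 * b5
    + 6845 * b6
    + 1 * b7
    + 1 * b8
    + 1 * b9
    + 1 * b10
    + 18374 * b11
    + 1 * b12
    + 35875 * b13
    + 1 * b14
    + 1 * b15
    + 52081 * b16
    + 1 * b17
    + 47738 * b18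
    + 1 * b19
    + 1 * p0
    + 1 * p1
    + 1 * p2
    + 1 * p3
    + 1 * p4
    + 1 * p5
    + 2689 * p6
    + 1 * q0
    + 1 * q1
    + 1 * q2
    + 1 * q3
    + 1 * q4
    + 1 * q5

end Pool.Agent.Helper80Bent
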