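import Mathlib

/-!
Shannon entropy (in nats) of a function of a uniformly random element of a finite type,
with the few inequalities needed: monotonicity, submodularity, the bound by the logarithm
of the number of values, and invariance under bijections.
-/

set_option autoImplicit false

namespace Pool.Agent.Helper80Bent

open Finset

section Entropy

variable {Ω : Type*} [Fintype Ω]

open Classical in
/-- Size of the fibre of `X` through `ω`. -/
noncomputable def fib {α : Type*} (X : Ω → α) (ω : Ω) : ℕ :=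
  (univ.filter (fun ω' => X ω' = X ω)).card

lemma fib_pos {α : Type*} (X : Ω → α) (ω : Ω) : 0 < fib X ω := by
  classical
  unfold fib
  exact Finset.card_pos.mpr ⟨ω, by simp⟩

lemma fib_le_card {α : Type*} (X : Ω → α) (ω : Ω) : fib X ω ≤ Fintype.card Ω := by
  classical
  unfold fib
  exact Finset.card_le_univ _

/-- Shannon entropy in nats of the function `X` of a uniform element of `Ω`. -/
noncomputable def ent {α : Type*} (X : Ω → α) : ℝ :=
  (∑ ω, (Real.log (Fintype.card Ω) - Real.log (fib X ω))) / Fintype.card Ω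

lemma ent_nonneg {α : Type*} (X : Ω → α) : 0 ≤ ent X := by
  unfold ent
  apply div_nonneg _ (by positivity)
  apply Finset.sum_nonneg
  intro ω _
  have : Real.log (fib X ω) ≤ Real.log (Fintype.card Ω) :=
    Real.log_le_log (by exact_mod_cast fib_pos X ω) (by exact_mod_cast fib_le_card X ω)
  linarith

lemma ent_mono {α β : Type*} (X : Ω → α) (Y : Ω → β)
    (h : ∀ ω ω', Y ω = Y ω' → X ω = X ω') : ent X ≤ ent Y := by
  classical
  unfold ent
  apply div_le_div_of_nonneg_right _ (by positivity)
  apply Finset.sum_le_sum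
  intro ω _
  have h1 : fib Y ω ≤ fib X ω := by
    unfold fib
    apply Finset.card_le_card
    intro ω' hω'
    simp only [Finset.mem_filter, Finset.mem_univ, true_and] at *
    exact h _ _ hω'
  have : Real.log (fib Y ω) ≤ Real.log (fib X ω) :=
    Real.log_le_log (by exact_mod_cast fib_pos Y ω) (by exact_mod_cast h1)
  linarith

lemma ent_congr {α β : Type*} (X : Ω → α) (Y : Ω → β)
    (h : ∀ ω ω', Y ω = Y ω' ↔ X ω = X ω') : ent X = ent Y :=
  le_antisymm (ent_mono X Y fun ω ω' => (h ω ω').1) (ent_mono Y X fun ω ω' => (h ω ω').2)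

lemma ent_const {α : Type*} (X : Ω → α) (h : ∀ ω ω', X ω = X ω') : ent X = 0 := by
  classical
  unfold ent
  have : ∀ ω ∈ (univ : Finset Ω),
      Real.log (Fintype.card Ω) - Real.log (fib X ω) = 0 := by
    intro ω _
    have : fib X ω = Fintype.card Ω := by
      unfold fib
      rw [Finset.filter_true_of_mem (fun ω' _ => h ω' ω)]
      rfl
    rw [this, sub_self]
  rw [Finset.sum_eq_zero this, zero_div]

lemma ent_inj {α : Type*} [Nonempty Ω] (X : Ω → α) (h : Function.Injective X) :
    ent X = Real.log (Fintype.card Ω) := by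
  classical
  unfold ent
  have h1 : ∀ ω ∈ (univ : Finset Ω),
      Real.log (Fintype.card Ω) - Real.log (fib X ω) = Real.log (Fintype.card Ω) := by
    intro ω _
    have : fib X ω = 1 := by
      unfold fib
      rw [Finset.card_eq_one]
      refine ⟨ω, ?_⟩
      ext ω'
      simp only [Finset.mem_filter, Finset.mem_univ, true_and, Finset.mem_singleton]
      exact ⟨fun h' => h h', fun h' => by rw [h']⟩
    rw [this]
    simp
  rw [Finset.sum_congr rfl h1, Finset.sum_const, Finset.card_univ, nsmul_eq_mul]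
  have : (Fintype.card Ω : ℝ) ≠ 0 := by
    have := Fintype.card_pos (α := Ω)
    positivity
  field_simp

lemma ent_comp_equiv {α : Type*} (X : Ω → α) (σ : Ω ≃ Ω) : ent (fun ω => X (σ ω)) = ent X := by
  classical
  unfold ent
  congr 1
  have h1 : ∀ ω, fib (fun ω => X (σ ω)) ω = fib X (σ ω) := by
    intro ω
    unfold fib
    apply Finset.card_bij (fun ω' _ => σ ω')
    · intro a ha
      simp only [Finset.mem_filter, Finset.mem_univ, true_and] at *
      exact ha
    · intro a _ b _ hab
      exact σ.injective hab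
    · intro b hb
      simp only [Finset.mem_filter, Finset.mem_univ, true_and] at *
      exact ⟨σ.symm b, by simpa using hb, by simp⟩
  simp only [h1]
  exact Equiv.sum_comp σ (fun ω => Real.log (Fintype.card Ω) - Real.log (fib X ω))

lemma sum_inv_fib {α : Type*} [Fintype α] (X : Ω → α) :
    ∑ ω, (1 / (fib X ω : ℝ)) ≤ Fintype.card α := by
  classical
  have h1 : ∑ ω, (1 / (fib X ω : ℝ))
      = ∑ a : α, ∑ ω ∈ univ.filter (fun ω => X ω = a), (1 / (fib X ω : ℝ)) := by
    exact (Finset.sum_fiberwise univ X (fun ω => (1 / (fib X ω : ℝ)))).symm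
  rw [h1]
  have h2 : ∀ a ∈ (univ : Finset α),
      ∑ ω ∈ univ.filter (fun ω => X ω = a), (1 / (fib X ω : ℝ)) ≤ 1 := by
    intro a _
    have h3 : ∀ ω ∈ univ.filter (fun ω => X ω = a),
        (1 / (fib X ω : ℝ)) = 1 / ((univ.filter (fun ω => X ω = a)).card : ℝ) := by
      intro ω hω
      simp only [Finset.mem_filter, Finset.mem_univ, true_and] at hω
      unfold fib
      rw [hω]
    rw [Finset.sum_congr rfl h3, Finset.sum_const, nsmul_eq_mul]
    rcases Nat.eq_zero_or_pos (univ.filter (fun ω => X ω = a)).card with h | h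
    · rw [h]; simp
    · have : ((univ.filter (fun ω => X ω = a)).card : ℝ) ≠ 0 := by positivity
      field_simp
      exact le_refl _
  calc _ ≤ ∑ a : α, (1 : ℝ) := Finset.sum_le_sum h2
    _ = Fintype.card α := by simp

lemma ent_le_log_card {α : Type*} [Fintype α] [Nonempty Ω] (X : Ω → α) :
    ent X ≤ Real.log (Fintype.card α) := by
  classical
  have hN : 0 < (Fintype.card Ω : ℝ) := by
    have := Fintype.card_pos (α := Ω)
    positivity
  have hM : 0 < (Fintype.card α : ℝ) := by
    have : Nonempty α := Nonempty.map X inferInstance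
    have := Fintype.card_pos (α := α)
    positivity
  unfold ent
  rw [div_le_iff₀ hN]
  have h1 : ∀ ω ∈ (univ : Finset Ω), Real.log (Fintype.card Ω) - Real.log (fib X ω)
      ≤ Real.log (Fintype.card α) + ((Fintype.card Ω : ℝ) / (Fintype.card α) * (1 / (fib X ω : ℝ)) - 1) := by
    intro ω _
    have hf : 0 < (fib X ω : ℝ) := by exact_mod_cast fib_pos X ω
    have h2 : Real.log ((Fintype.card Ω : ℝ) / (Fintype.card α) * (1 / (fib X ω : ℝ)))
        ≤ (Fintype.card Ω : ℝ) / (Fintype.card α) * (1 / (fib X ω : ℝ)) - 1 := by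
      apply Real.log_le_sub_one_of_pos
      positivity
    rw [Real.log_mul (by positivity) (by positivity), Real.log_div (by positivity) (by positivity),
      one_div, Real.log_inv] at h2
    rw [one_div]
    linarith
  calc ∑ ω, (Real.log (Fintype.card Ω) - Real.log (fib X ω))
      ≤ ∑ ω : Ω, (Real.log (Fintype.card α) +
          ((Fintype.card Ω : ℝ) / (Fintype.card α) * (1 / (fib X ω : ℝ)) - 1)) :=
        Finset.sum_le_sum h1
    _ = Real.log (Fintype.card α) * Fintype.card Ω +
          ((Fintype.card Ω : ℝ) / (Fintype.card α) * (∑ ω, (1 / (fib X ω : ℝ))) - Fintype.card Ω) := by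
        rw [Finset.sum_add_distrib, Finset.sum_sub_distrib, ← Finset.mul_sum]
        simp
        ring
    _ ≤ Real.log (Fintype.card α) * Fintype.card Ω +
          ((Fintype.card Ω : ℝ) / (Fintype.card α) * (Fintype.card α) - Fintype.card Ω) := by
        have := sum_inv_fib X
        gcongr
    _ = Real.log (Fintype.card α) * Fintype.card Ω := by
        rw [div_mul_cancel₀ _ hM.ne']
        ring

lemma ent_submod {α β γ δ : Type*} (X : Ω → α) (Y : Ω → β) (P : Ω → γ) (Q : Ω → δ)
    (hP : ∀ ω ω', X ω = X ω' → Y ω = Y ω' → P ω = P ω')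
    (hX : ∀ ω ω', X ω = X ω' → Q ω = Q ω')
    (hY : ∀ ω ω', Y ω = Y ω' → Q ω = Q ω') :
    ent P + ent Q ≤ ent X + ent Y := by
  classical
  -- key estimate
  have key : ∑ ω, ((fib X ω : ℝ) * (fib Y ω) / ((fib P ω) * (fib Q ω))) ≤ Fintype.card Ω := by
    have e1 : ∀ ω, ((fib X ω : ℝ) * (fib Y ω) / ((fib P ω) * (fib Q ω)))
        = ∑ ω1, ∑ ω2, (if X ω = X ω1 ∧ Y ω = Y ω2 then (1 : ℝ) / ((fib P ω) * (fib Q ω)) else 0) := by
      intro ω
      have hx : (fib X ω : ℝ) = ∑ ω1, (if X ω = X ω1 then (1 : ℝ) else 0) := by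
        unfold fib
        rw [Finset.sum_ite, Finset.sum_const_zero, add_zero, Finset.sum_const, nsmul_eq_mul, mul_one]
        congr 2
        ext ω1
        simp only [Finset.mem_filter, Finset.mem_univ, true_and]
        exact eq_comm
      have hy : (fib Y ω : ℝ) = ∑ ω2, (if Y ω = Y ω2 then (1 : ℝ) else 0) := by
        unfold fib
        rw [Finset.sum_ite, Finset.sum_const_zero, add_zero, Finset.sum_const, nsmul_eq_mul, mul_one]
        congr 2
        ext ω1
        simp only [Finset.mem_filter, Finset.mem_univ, true_and]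
        exact eq_comm
      rw [hx, hy, Finset.sum_mul_sum, div_eq_mul_one_div, Finset.sum_mul]
      apply Finset.sum_congr rfl
      intro ω1 _
      rw [Finset.sum_mul]
      apply Finset.sum_congr rfl
      intro ω2 _
      by_cases h1 : X ω = X ω1 <;> by_cases h2 : Y ω = Y ω2 <;> simp [h1, h2]
    simp only [e1]
    rw [Finset.sum_comm]
    have e2 : ∀ ω1 ∈ (univ : Finset Ω), ∑ ω, ∑ ω2,
        (if X ω = X ω1 ∧ Y ω = Y ω2 then (1 : ℝ) / ((fib P ω) * (fib Q ω)) else 0) ≤ 1 := by
      intro ω1 _
      rw [Finset.sum_comm]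
      have e3 : ∀ ω2 ∈ (univ : Finset Ω), ∑ ω,
          (if X ω = X ω1 ∧ Y ω = Y ω2 then (1 : ℝ) / ((fib P ω) * (fib Q ω)) else 0)
          ≤ (if Q ω2 = Q ω1 then (1 : ℝ) / (fib Q ω1) else 0) := by
        intro ω2 _
        rw [← Finset.sum_filter]
        set A := univ.filter (fun ω => X ω = X ω1 ∧ Y ω = Y ω2) with hA
        rcases Finset.eq_empty_or_nonempty A with h | h
        · rw [h, Finset.sum_empty]
          split_ifs
          · positivity
          · exact le_refl _
        · obtain ⟨ω0, hω0⟩ := h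
          have hm0 : X ω0 = X ω1 ∧ Y ω0 = Y ω2 := by simpa [hA] using hω0
          have hq : Q ω2 = Q ω1 := (hY _ _ hm0.2).symm.trans (hX _ _ hm0.1)
          rw [if_pos hq]
          have hAc : 0 < (A.card : ℝ) := by
            exact_mod_cast Finset.card_pos.mpr ⟨ω0, hω0⟩
          have hQ1 : 0 < (fib Q ω1 : ℝ) := by exact_mod_cast fib_pos Q ω1
          have e4 : ∀ ω ∈ A, (1 : ℝ) / ((fib P ω) * (fib Q ω)) ≤ 1 / (A.card * fib Q ω1) := by
            intro ω hω
            have hm : X ω = X ω1 ∧ Y ω = Y ω2 := by simpa [hA] using hω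
            have hQe : fib Q ω = fib Q ω1 := by
              unfold fib
              rw [hX _ _ hm.1]
            have hPe : A.card ≤ fib P ω := by
              unfold fib
              apply Finset.card_le_card
              intro ω' hω'
              have hm' : X ω' = X ω1 ∧ Y ω' = Y ω2 := by simpa [hA] using hω'
              simp only [Finset.mem_filter, Finset.mem_univ, true_and]
              exact hP _ _ (hm'.1.trans hm.1.symm) (hm'.2.trans hm.2.symm)
            rw [hQe]
            apply one_div_le_one_div_of_le (by positivity)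
            gcongr
          calc ∑ ω ∈ A, (1 : ℝ) / ((fib P ω) * (fib Q ω))
              ≤ ∑ ω ∈ A, (1 : ℝ) / (A.card * fib Q ω1) := Finset.sum_le_sum e4
            _ = 1 / fib Q ω1 := by
              rw [Finset.sum_const, nsmul_eq_mul]
              field_simp
      calc _ ≤ ∑ ω2, (if Q ω2 = Q ω1 then (1 : ℝ) / (fib Q ω1) else 0) := Finset.sum_le_sum e3
        _ = 1 := by
          rw [← Finset.sum_filter, Finset.sum_const, nsmul_eq_mul]
          have hQ1 : 0 < (fib Q ω1 : ℝ) := by exact_mod_cast fib_pos Q ω1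
          have : ((univ.filter (fun ω2 => Q ω2 = Q ω1)).card : ℝ) = fib Q ω1 := rfl
          rw [this]
          field_simp
    calc _ ≤ ∑ ω1 : Ω, (1 : ℝ) := Finset.sum_le_sum e2
      _ = Fintype.card Ω := by simp
  have hterm : ∀ ω ∈ (univ : Finset Ω),
      Real.log (fib X ω) + Real.log (fib Y ω) - Real.log (fib P ω) - Real.log (fib Q ω)
      ≤ (fib X ω : ℝ) * (fib Y ω) / ((fib P ω) * (fib Q ω)) - 1 := by
    intro ω _
    have hx : 0 < (fib X ω : ℝ) := by exact_mod_cast fib_pos X ω
    have hy : 0 < (fib Y ω : ℝ) := by exact_mod_cast fib_pos Y ω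
    have hp : 0 < (fib P ω : ℝ) := by exact_mod_cast fib_pos P ω
    have hq : 0 < (fib Q ω : ℝ) := by exact_mod_cast fib_pos Q ω
    have h2 := Real.log_le_sub_one_of_pos
      (show 0 < (fib X ω : ℝ) * (fib Y ω) / ((fib P ω) * (fib Q ω)) by positivity)
    rw [Real.log_div (by positivity) (by positivity), Real.log_mul hx.ne' hy.ne',
      Real.log_mul hp.ne' hq.ne'] at h2
    linarith
  have hsum := Finset.sum_le_sum hterm
  rw [Finset.sum_sub_distrib (s := univ)
    (f := fun ω => (fib X ω : ℝ) * (fib Y ω) / ((fib P ω) * (fib Q ω)))] at hsum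
  have hone : ∑ _ω : Ω, (1 : ℝ) = Fintype.card Ω := by simp
  have hle : ∑ ω, (Real.log (fib X ω) + Real.log (fib Y ω) - Real.log (fib P ω)
      - Real.log (fib Q ω)) ≤ 0 := by
    linarith
  unfold ent
  rw [← add_div, ← add_div]
  apply div_le_div_of_nonneg_right _ (by positivity)
  rw [← Finset.sum_add_distrib, ← Finset.sum_add_distrib, ← sub_nonpos, ← Finset.sum_sub_distrib]
  refine le_trans (le_of_eq ?_) hle
  apply Finset.sum_congr rfl
  intro ω _
  ring

/-- Subadditivity. -/
lemma ent_le_add {α β γ : Type*} (X : Ω → α) (Y : Ω → β) (P : Ω → γ)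
    (hP : ∀ ω ω', X ω = X ω' → Y ω = Y ω' → P ω = P ω') :
    ent P ≤ ent X + ent Y := by
  have h := ent_submod X Y P (fun _ => ()) hP (fun _ _ _ => rfl) (fun _ _ _ => rfl)
  have h0 := ent_nonneg (Ω := Ω) (fun _ => ())
  linarith

end Entropy

end Pool.Agent.Helper80Bent
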