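import Pool.Agent.Helper80_Bent.Bound
import Pool.Agent.Helper80_Bent.Cert

/-!
Upper bound for the number of bent functions, and the comparison with the conjectured lower bound.
-/

set_option autoImplicit false
set_option linter.unusedSectionVars false

namespace Pool.Agent.Helper80Bent

open Finset

lemma centralBinom_sq (h : ℕ) : (2 * h + 1) * Nat.centralBinom h ^ 2 ≤ 16 ^ h := by
  induction h with
  | zero => simp
  | succ n ih =>
    have h1 := Nat.succ_mul_centralBinom_succ n
    have h2 : (n + 1) ^ 2 * ((2 * (n + 1) + 1) * Nat.centralBinom (n + 1) ^ 2)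
        ≤ (n + 1) ^ 2 * 16 ^ (n + 1) := by
      calc (n + 1) ^ 2 * ((2 * (n + 1) + 1) * Nat.centralBinom (n + 1) ^ 2)
          = (2 * n + 3) * ((n + 1) * Nat.centralBinom (n + 1)) ^ 2 := by ring
        _ = (2 * n + 3) * (2 * (2 * n + 1) * Nat.centralBinom n) ^ 2 := by rw [h1]
        _ = 4 * ((2 * n + 3) * (2 * n + 1)) * ((2 * n + 1) * Nat.centralBinom n ^ 2) := by ring
        _ ≤ 4 * (4 * (n + 1) ^ 2) * 16 ^ n := by
            apply Nat.mul_le_mul _ ih
            apply Nat.mul_le_mul_left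
            nlinarith
        _ = (n + 1) ^ 2 * 16 ^ (n + 1) := by ring
    exact Nat.le_of_mul_le_mul_left h2 (by positivity)

/-- Upper bound for the logarithm of the number of bent functions in `2h ≥ 26` variables. -/
theorem log_card_le {ι : Type*} [Fintype ι] [DecidableEq ι] {h : ℕ}
    (hn : Fintype.card ι = 2 * h) (hh : 13 ≤ h) [Nonempty (B ι)] :
    Real.log (Fintype.card (B ι)) ≤
      (130655 / 524288 * (2 : ℝ) ^ (2 * h) + 2719 * (Nat.centralBinom h : ℝ)) * Real.log 2 := by
  have hl : 0 < Real.log 2 := Real.log_pos (by norm_num)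
  have hc := cert (Zv ι) (Wv ι) ((2 : ℝ) ^ (2 * h) * Real.log 2)
    (15 / 2 * (Nat.centralBinom h : ℝ) * Real.log 2)
    Zv_nonneg Wv_nonneg
    (fun j d r hle => ineq_ZW j d r (by omega))
    (fun j r hle => ineq_Zsplit j r (by omega))
    (fun j r hle => ineq_ZmonR j r (by omega))
    (fun j d r hle => ineq_WmonR j d r (by omega))
    (fun j d r hle => ineq_Wsub j d r (by omega))
    (fun j d r hle => ineq_WleZ j d r (by omega))
    (fun j r hle => eq_W1 j r (by omega))
    (fun r hle => ineq_dual hn r (by omega))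
    (fun j r hle => by
      refine le_trans (Zv_le hn (by omega) j r (by omega) (by omega)) ?_
      have hr : (r : ℝ) ≤ 13 := by exact_mod_cast (by omega : r ≤ 13)
      have hcb : (0 : ℝ) ≤ (Nat.centralBinom h : ℝ) := by positivity
      have h1 : ((r : ℝ) + 2) / 2 * (Nat.centralBinom h : ℝ) ≤ 15 / 2 * (Nat.centralBinom h : ℝ) := by
        apply mul_le_mul_of_nonneg_right _ hcb
        linarith
      have h2 : ((2 : ℝ) ^ (2 * h) / 2 ^ (j + r + 1) + ((r : ℝ) + 2) / 2 * (Nat.centralBinom h : ℝ))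
          * Real.log 2 ≤ ((2 : ℝ) ^ (2 * h) / 2 ^ (j + r + 1)
            + 15 / 2 * (Nat.centralBinom h : ℝ)) * Real.log 2 := by
        apply mul_le_mul_of_nonneg_right _ hl.le
        linarith
      refine le_trans h2 (le_of_eq ?_)
      ring)
  rw [Zv_zero] at hc
  have hcb : (0 : ℝ) ≤ (Nat.centralBinom h : ℝ) * Real.log 2 := by positivity
  nlinarith [hc, hcb]

/-- The set of bent functions in `n` variables is smaller than conjectured, for large `n`. -/
theorem card_lt {n h : ℕ} (hnh : n = 2 * h) (hh : 10 ^ 13 ≤ h) :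
    (Fintype.card (B (Fin n)) : ℝ)
      < (2 : ℝ) ^ ((2 : ℝ) ^ (2 * h) / 4 + (Nat.centralBinom h : ℝ) / 4) := by
  by_cases hne : Nonempty (B (Fin n))
  · have hl : 0 < Real.log 2 := Real.log_pos (by norm_num)
    have h1 := log_card_le (ι := Fin n) (h := h) (by rw [Fintype.card_fin, hnh]) (by omega)
    have hpos : (0 : ℝ) < (Fintype.card (B (Fin n)) : ℝ) := by
      exact_mod_cast Fintype.card_pos
    rw [← Real.log_lt_log_iff hpos (by positivity), Real.log_rpow (by norm_num)]
    refine lt_of_le_of_lt h1 ?_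
    apply mul_lt_mul_of_pos_right _ hl
    -- numeric comparison
    have h2 := centralBinom_sq h
    have h3 : ((2 * h + 1 : ℕ) : ℝ) * (Nat.centralBinom h : ℝ) ^ 2 ≤ ((2 : ℝ) ^ (2 * h)) ^ 2 := by
      have : ((2 : ℝ) ^ (2 * h)) ^ 2 = 16 ^ h := by
        rw [← pow_mul, mul_comm (2 * h) 2, ← mul_assoc, pow_mul]
        norm_num
      rw [this]
      exact_mod_cast h2
    have h4 : (2 * 10 ^ 13 : ℝ) ≤ ((2 * h + 1 : ℕ) : ℝ) := by
      have : 2 * 10 ^ 13 ≤ 2 * h + 1 := by omega
      exact_mod_cast this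
    have h5 : (4 * 10 ^ 6 * (Nat.centralBinom h : ℝ)) ^ 2 ≤ ((2 : ℝ) ^ (2 * h)) ^ 2 := by
      refine le_trans ?_ h3
      rw [mul_pow]
      apply mul_le_mul_of_nonneg_right _ (by positivity)
      refine le_trans ?_ h4
      norm_num
    have h6 : 4 * 10 ^ 6 * (Nat.centralBinom h : ℝ) ≤ (2 : ℝ) ^ (2 * h) :=
      le_of_sq_le_sq h5 (by positivity)
    have h7 : (0 : ℝ) < (Nat.centralBinom h : ℝ) := by exact_mod_cast Nat.centralBinom_pos h
    linarith
  · rw [not_nonempty_iff] at hne
    rw [Fintype.card_eq_zero]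
    simp only [Nat.cast_zero]
    positivity

end Pool.Agent.Helper80Bent
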