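import Pool.Agent.Helper80_Bent.Obs

/-!
The entropies `Zv j r` and `Wv j d r` and the linear inequalities between them.
-/

set_option autoImplicit false
set_option linter.unusedSectionVars false

namespace Pool.Agent.Helper80Bent

open Finset

variable {ι : Type*} [Fintype ι] [DecidableEq ι]

/-- Number of coordinates of a given colour. -/
def cnt (c : ι → Col) (k : Col) : ℕ := (univ.filter (fun i => c i = k)).card

lemma cnt_sum (c : ι → Col) :
    cnt c Col.F + cnt c Col.D + cnt c Col.R + cnt c Col.U = Fintype.card ι := by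
  unfold cnt
  simp only [Finset.card_filter]
  rw [← Finset.sum_add_distrib, ← Finset.sum_add_distrib, ← Finset.sum_add_distrib]
  rw [← Finset.card_univ, Finset.card_eq_sum_ones]
  apply Finset.sum_congr rfl
  intro i _
  cases c i <;> simp

lemma cnt_update (c : ι → Col) (e : ι) (k' k : Col) :
    cnt (Function.update c e k') k + (if c e = k then 1 else 0)
      = cnt c k + (if k' = k then 1 else 0) := by
  unfold cnt
  simp only [Finset.card_filter]
  rw [← Finset.add_sum_erase univ (fun i => if Function.update c e k' i = k then 1 else 0)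
    (Finset.mem_univ e), ← Finset.add_sum_erase univ (fun i => if c i = k then 1 else 0)
    (Finset.mem_univ e)]
  have h : ∑ i ∈ univ.erase e, (if Function.update c e k' i = k then 1 else 0)
      = ∑ i ∈ univ.erase e, (if c i = k then 1 else 0) := by
    apply Finset.sum_congr rfl
    intro i hi
    rw [Function.update_of_ne (Finset.ne_of_mem_erase hi)]
  rw [h, Function.update_self]
  ring

lemma exists_of_cnt_pos (c : ι → Col) (k : Col) (h : 0 < cnt c k) : ∃ e, c e = k := by
  obtain ⟨e, he⟩ := Finset.card_pos.1 h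
  exact ⟨e, (Finset.mem_filter.1 he).2⟩

lemma exists_perm (c c' : ι → Col) (h : ∀ k, cnt c k = cnt c' k) :
    ∃ σ : Equiv.Perm ι, c' ∘ σ = c := by
  have h1 : ∀ k, Nonempty ({i // c i = k} ≃ {i // c' i = k}) := by
    intro k
    apply Fintype.card_eq.1
    rw [Fintype.card_subtype, Fintype.card_subtype]
    exact h k
  let E : ∀ k, {i // c i = k} ≃ {i // c' i = k} := fun k => Classical.choice (h1 k)
  refine ⟨(Equiv.sigmaFiberEquiv c).symm.trans
    ((Equiv.sigmaCongrRight E).trans (Equiv.sigmaFiberEquiv c')), ?_⟩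
  ext i
  exact ((E (c i)) ⟨i, rfl⟩).2

/-- Entropy of the observable of a colouring. -/
noncomputable def entZ (c : ι → Col) : ℝ := ent (fun f : B ι => obs c f.1)

/-- Entropy of the derivatives in the marked directions. -/
noncomputable def entW (c : ι → Col) : ℝ := ent (fun f : B ι => wobs c f.1)

lemma comp_symm_comp (σ : Equiv.Perm ι) (x : V ι) : (x ∘ σ.symm) ∘ σ = x := by
  ext i; simp

lemma entZ_perm (c : ι → Col) (σ : Equiv.Perm ι) : entZ c = entZ (c ∘ σ) := by
  unfold entZ
  rw [← ent_comp_equiv (fun f : B ι => obs c f.1) (permEquiv σ)]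
  apply ent_congr
  intro f g
  change obs (c ∘ σ) f.1 = obs (c ∘ σ) g.1 ↔ obs c (permf σ f.1) = obs c (permf σ g.1)
  constructor
  · intro h
    ext x
    rw [obs_permf, obs_permf, h]
  · intro h
    ext x
    have := congrFun h (x ∘ σ.symm)
    rw [obs_permf, obs_permf, comp_symm_comp] at this
    exact this

lemma entW_perm (c : ι → Col) (σ : Equiv.Perm ι) : entW c = entW (c ∘ σ) := by
  unfold entW
  rw [← ent_comp_equiv (fun f : B ι => wobs c f.1) (permEquiv σ)]
  apply ent_congr
  intro f g
  change wobs (c ∘ σ) f.1 = wobs (c ∘ σ) g.1 ↔ wobs c (permf σ f.1) = wobs c (permf σ g.1)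
  constructor
  · intro h
    ext e x
    have e1 : e = σ (σ.symm e) := by simp
    rw [e1, wobs_permf, wobs_permf, h]
  · intro h
    ext e x
    have := congrFun (congrFun h (σ e)) (x ∘ σ.symm)
    rw [wobs_permf, wobs_permf, comp_symm_comp] at this
    exact this

lemma entZ_congr (c c' : ι → Col) (h : ∀ k, cnt c k = cnt c' k) : entZ c = entZ c' := by
  obtain ⟨σ, hσ⟩ := exists_perm c c' h
  rw [entZ_perm c' σ, hσ]

lemma entW_congr (c c' : ι → Col) (h : ∀ k, cnt c k = cnt c' k) : entW c = entW c' := by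
  obtain ⟨σ, hσ⟩ := exists_perm c c' h
  rw [entW_perm c' σ, hσ]

lemma entZ_DF (c : ι → Col) : entZ (DF c) = entZ c := by
  unfold entZ
  congr 1
  ext f x
  rw [obs_DF]

lemma cnt_DF_D (c : ι → Col) : cnt (DF c) Col.D = 0 := by
  unfold cnt DF
  rw [Finset.card_eq_zero, Finset.filter_eq_empty_iff]
  intro i _
  split_ifs with h
  · simp
  · exact h

lemma cnt_DF_of_ne (c : ι → Col) (k : Col) (h1 : k ≠ Col.D) (h2 : k ≠ Col.F) :
    cnt (DF c) k = cnt c k := by
  unfold cnt DF
  congr 1
  ext i
  simp only [Finset.mem_filter, Finset.mem_univ, true_and]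
  by_cases h : c i = Col.D
  · rw [if_pos h, h]
    constructor
    · intro h'; exact absurd h'.symm h2
    · intro h'; exact absurd h'.symm h1
  · rw [if_neg h]

lemma cnt_DR_U (c : ι → Col) : cnt (DR c) Col.U = cnt c Col.U := by
  unfold cnt DR
  congr 1
  ext i
  simp only [Finset.mem_filter, Finset.mem_univ, true_and]
  by_cases h : c i = Col.D
  · rw [if_pos h, h]
    simp
  · rw [if_neg h]

lemma cnt_DR_R (c : ι → Col) : cnt (DR c) Col.R = cnt c Col.R + cnt c Col.D := by
  unfold cnt DR
  simp only [Finset.card_filter]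
  rw [← Finset.sum_add_distrib]
  apply Finset.sum_congr rfl
  intro i _
  cases c i <;> simp

lemma entZ_congr' (c c' : ι → Col) (h1 : cnt c Col.U = cnt c' Col.U)
    (h2 : cnt c Col.R = cnt c' Col.R) : entZ c = entZ c' := by
  rw [← entZ_DF c, ← entZ_DF c']
  apply entZ_congr
  have e1 := cnt_DF_D c
  have e2 := cnt_DF_D c'
  have e3 := cnt_DF_of_ne c Col.U (by decide) (by decide)
  have e4 := cnt_DF_of_ne c' Col.U (by decide) (by decide)
  have e5 := cnt_DF_of_ne c Col.R (by decide) (by decide)
  have e6 := cnt_DF_of_ne c' Col.R (by decide) (by decide)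
  have e7 := cnt_sum (DF c)
  have e8 := cnt_sum (DF c')
  intro k
  cases k
  · omega
  · omega
  · omega
  · omega

variable (ι)

open Classical in
/-- Entropy of the `j`-fold derivative of a random bent function, restricted to a subcube
of codimension `r`. -/
noncomputable def Zv (j r : ℕ) : ℝ :=
  if h : ∃ c : ι → Col, cnt c Col.U = j ∧ cnt c Col.R = r then entZ (Classical.choose h) else 0

open Classical in
/-- Joint entropy of `d` derivatives of order `j+1` with `j` directions in common,
restricted to a subcube of codimension `r`. -/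
noncomputable def Wv (j d r : ℕ) : ℝ :=
  if h : ∃ c : ι → Col, cnt c Col.U = j ∧ cnt c Col.D = d ∧ cnt c Col.R = r then
    entW (Classical.choose h) else 0

variable {ι}

lemma Zv_eq (c : ι → Col) {j r : ℕ} (h1 : cnt c Col.U = j) (h2 : cnt c Col.R = r) :
    entZ c = Zv ι j r := by
  have h : ∃ c : ι → Col, cnt c Col.U = j ∧ cnt c Col.R = r := ⟨c, h1, h2⟩
  unfold Zv
  rw [dif_pos h]
  have hs := Classical.choose_spec h
  exact entZ_congr' _ _ (h1.trans hs.1.symm) (h2.trans hs.2.symm)

lemma Wv_eq (c : ι → Col) {j d r : ℕ} (h1 : cnt c Col.U = j) (h2 : cnt c Col.D = d)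
    (h3 : cnt c Col.R = r) : entW c = Wv ι j d r := by
  have h : ∃ c : ι → Col, cnt c Col.U = j ∧ cnt c Col.D = d ∧ cnt c Col.R = r := ⟨c, h1, h2, h3⟩
  unfold Wv
  rw [dif_pos h]
  have hs := Classical.choose_spec h
  apply entW_congr
  have e7 := cnt_sum c
  have e8 := cnt_sum (Classical.choose h)
  have h1' := hs.1
  have h2' := hs.2.1
  have h3' := hs.2.2
  intro k
  cases k <;> omega

lemma exists_col (j d r : ℕ) (h : j + d + r ≤ Fintype.card ι) :
    ∃ c : ι → Col, cnt c Col.U = j ∧ cnt c Col.D = d ∧ cnt c Col.R = r := by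
  obtain ⟨S1, -, hS1⟩ := Finset.exists_subset_card_eq
    (show j ≤ (univ : Finset ι).card by rw [Finset.card_univ]; omega)
  obtain ⟨S2, hS2s, hS2⟩ := Finset.exists_subset_card_eq
    (show d ≤ (S1ᶜ : Finset ι).card by rw [Finset.card_compl]; omega)
  have h12 : Disjoint S1 S2 := by
    rw [Finset.disjoint_left]
    intro i hi hi2
    exact (Finset.mem_compl.1 (hS2s hi2)) hi
  obtain ⟨S3, hS3s, hS3⟩ := Finset.exists_subset_card_eq
    (show r ≤ ((S1 ∪ S2)ᶜ : Finset ι).card by
      rw [Finset.card_compl, Finset.card_union_of_disjoint h12]; omega)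
  have h3 : ∀ i ∈ S3, i ∉ S1 ∧ i ∉ S2 := by
    intro i hi
    have := Finset.mem_compl.1 (hS3s hi)
    rw [Finset.mem_union] at this
    push Not at this
    exact this
  have h2 : ∀ i ∈ S2, i ∉ S1 := fun i hi => Finset.mem_compl.1 (hS2s hi)
  refine ⟨fun i => if i ∈ S1 then Col.U else if i ∈ S2 then Col.D else if i ∈ S3 then Col.R
    else Col.F, ?_, ?_, ?_⟩
  · unfold cnt
    rw [← hS1]
    congr 1
    ext i
    simp only [Finset.mem_filter, Finset.mem_univ, true_and]
    by_cases hi1 : i ∈ S1
    · simp [hi1]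
    · by_cases hi2 : i ∈ S2
      · simp [hi1, hi2]
      · by_cases hi3 : i ∈ S3 <;> simp [hi1, hi2, hi3]
  · unfold cnt
    rw [← hS2]
    congr 1
    ext i
    simp only [Finset.mem_filter, Finset.mem_univ, true_and]
    by_cases hi1 : i ∈ S1
    · have hi2 : i ∉ S2 := fun h => h2 i h hi1
      simp [hi1, hi2]
    · by_cases hi2 : i ∈ S2
      · simp [hi1, hi2]
      · by_cases hi3 : i ∈ S3 <;> simp [hi1, hi2, hi3]
  · unfold cnt
    rw [← hS3]
    congr 1
    ext i
    simp only [Finset.mem_filter, Finset.mem_univ, true_and]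
    by_cases hi1 : i ∈ S1
    · have hi3 : i ∉ S3 := fun h => (h3 i h).1 hi1
      simp [hi1, hi3]
    · by_cases hi2 : i ∈ S2
      · have hi3 : i ∉ S3 := fun h => (h3 i h).2 hi2
        simp [hi1, hi2, hi3]
      · by_cases hi3 : i ∈ S3 <;> simp [hi1, hi2, hi3]

lemma Zv_nonneg (j r : ℕ) : 0 ≤ Zv ι j r := by
  unfold Zv
  split_ifs
  · exact ent_nonneg _
  · exact le_refl _

lemma Wv_nonneg (j d r : ℕ) : 0 ≤ Wv ι j d r := by
  unfold Wv
  split_ifs
  · exact ent_nonneg _
  · exact le_refl _

theorem ineq_ZW (j d r : ℕ) (h : j + d + r ≤ Fintype.card ι) :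
    Zv ι j r ≤ Wv ι j d r + Zv ι j (r + d) := by
  obtain ⟨c, h1, h2, h3⟩ := exists_col (ι := ι) j d r h
  rw [← Zv_eq c h1 h3, ← Wv_eq c h1 h2 h3,
    ← Zv_eq (DR c) ((cnt_DR_U c).trans h1) ((cnt_DR_R c).trans (by rw [h2, h3]))]
  exact ent_le_add _ _ _ (fun f g => det_ZW c f.1 g.1)

theorem ineq_WleZ (j d r : ℕ) (h : j + d + r ≤ Fintype.card ι) :
    Wv ι j d r ≤ Zv ι j r := by
  obtain ⟨c, h1, h2, h3⟩ := exists_col (ι := ι) j d r h
  rw [← Zv_eq c h1 h3, ← Wv_eq c h1 h2 h3]
  exact ent_mono _ _ (fun f g => det_WleZ c f.1 g.1)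

theorem ineq_ZmonR (j r : ℕ) (h : j + r + 1 ≤ Fintype.card ι) :
    Zv ι j (r + 1) ≤ Zv ι j r := by
  obtain ⟨c, h1, h2, h3⟩ := exists_col (ι := ι) j 0 r (by omega)
  have hs := cnt_sum c
  obtain ⟨e, he⟩ := exists_of_cnt_pos c Col.F (by omega)
  have hU := cnt_update c e Col.R Col.U
  have hR := cnt_update c e Col.R Col.R
  simp [he] at hU hR
  rw [← Zv_eq c h1 h3, ← Zv_eq (Function.update c e Col.R) (by omega) (by omega)]
  exact ent_mono _ _ (fun f g => det_R c e (Or.inl he) f.1 g.1)

theorem ineq_WmonR (j d r : ℕ) (h : j + d + r + 1 ≤ Fintype.card ι) :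
    Wv ι j d (r + 1) ≤ Wv ι j d r := by
  obtain ⟨c, h1, h2, h3⟩ := exists_col (ι := ι) j d r (by omega)
  have hs := cnt_sum c
  obtain ⟨e, he⟩ := exists_of_cnt_pos c Col.F (by omega)
  have hU := cnt_update c e Col.R Col.U
  have hR := cnt_update c e Col.R Col.R
  have hD := cnt_update c e Col.R Col.D
  simp [he] at hU hR hD
  rw [← Wv_eq c h1 h2 h3, ← Wv_eq (Function.update c e Col.R) (by omega) (by omega) (by omega)]
  exact ent_mono _ _ (fun f g => det_WR c e he f.1 g.1)

theorem ineq_Wsub (j d r : ℕ) (h : j + (d + 1) + r ≤ Fintype.card ι) :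
    Wv ι j (d + 1) r + Wv ι (j + 1) d r ≤ Wv ι j d r + Zv ι (j + 1) r := by
  obtain ⟨c, h1, h2, h3⟩ := exists_col (ι := ι) j (d + 1) r (by omega)
  obtain ⟨e, he⟩ := exists_of_cnt_pos c Col.D (by omega)
  have hU := cnt_update c e Col.U Col.U
  have hR := cnt_update c e Col.U Col.R
  have hD := cnt_update c e Col.U Col.D
  have hU' := cnt_update c e Col.F Col.U
  have hR' := cnt_update c e Col.F Col.R
  have hD' := cnt_update c e Col.F Col.D
  simp [he] at hU hR hD hU' hR' hD'
  rw [← Wv_eq c h1 h2 h3,
    ← Wv_eq (Function.update c e Col.U) (show _ = j + 1 by omega) (show _ = d by omega)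
      (show _ = r by omega),
    ← Zv_eq (Function.update c e Col.U) (show _ = j + 1 by omega) (show _ = r by omega),
    ← Wv_eq (Function.update c e Col.F) (show _ = j by omega) (show _ = d by omega)
      (show _ = r by omega)]
  exact ent_submod _ _ _ _ (fun f g => det_Wsub c e he f.1 g.1) (fun f g => det_WU c e f.1 g.1)
    (fun f g => det_WU' c e f.1 g.1)

theorem eq_W1 (j r : ℕ) (h : j + 1 + r ≤ Fintype.card ι) :
    Wv ι j 1 r = Zv ι (j + 1) r := by
  obtain ⟨c, h1, h2, h3⟩ := exists_col (ι := ι) j 1 r h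
  obtain ⟨e, he⟩ := exists_of_cnt_pos c Col.D (by omega)
  have hU := cnt_update c e Col.U Col.U
  have hR := cnt_update c e Col.U Col.R
  simp [he] at hU hR
  rw [← Wv_eq c h1 h2 h3,
    ← Zv_eq (Function.update c e Col.U) (show _ = j + 1 by omega) (show _ = r by omega)]
  apply ent_congr
  intro f g
  constructor
  · intro hh
    ext i x
    unfold wobs
    by_cases hi : c i = Col.D
    · have hie : i = e := by
        unfold cnt at h2
        obtain ⟨a, ha⟩ := Finset.card_eq_one.1 h2
        have e1 : i ∈ univ.filter (fun i => c i = Col.D) := by simp [hi]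
        have e2 : e ∈ univ.filter (fun i => c i = Col.D) := by simp [he]
        rw [ha, Finset.mem_singleton] at e1 e2
        rw [e1, e2]
      subst hie
      rw [if_pos hi, if_pos hi]
      exact congrFun hh x
    · rw [if_neg hi, if_neg hi]
  · intro hh
    ext x
    have := congrFun (congrFun hh e) x
    unfold wobs at this
    rw [if_pos he, if_pos he] at this
    exact this

theorem ineq_Zsplit (j r : ℕ) (h : j + 1 + r ≤ Fintype.card ι) :
    Zv ι j r ≤ Zv ι j (r + 1) + Zv ι (j + 1) r := by
  have h1 := ineq_ZW (ι := ι) j 1 r h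
  rw [eq_W1 j r h] at h1
  linarith

lemma obs_noU (c : ι → Col) (hc : ∀ i, c i ≠ Col.U) (f : V ι → ZMod 2) (x : V ι) :
    obs c f x = f (fun i => if c i = Col.R then 0 else x i) := by
  unfold obs
  rw [Finset.sum_eq_single (fun i => if c i = Col.R then 0 else x i)]
  · intro y hy hne
    exfalso
    apply hne
    ext i
    have := (Finset.mem_filter.1 hy).2 i
    have hci := hc i
    cases h : c i <;> simp_all [ok]
  · intro hy
    exfalso
    apply hy
    simp only [Finset.mem_filter, Finset.mem_univ, true_and]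
    intro i
    have hci := hc i
    cases h : c i <;> simp_all [ok]

theorem ineq_dual {h : ℕ} (hn : Fintype.card ι = 2 * h) (r : ℕ) (hr : r + 1 ≤ Fintype.card ι) :
    Zv ι 0 r + Zv ι (r + 1) 0 ≤ 2 * Zv ι 0 (r + 1) := by
  obtain ⟨c, h1, h2, h3⟩ := exists_col (ι := ι) 0 0 r (by omega)
  have hs := cnt_sum c
  obtain ⟨e, he⟩ := exists_of_cnt_pos c Col.F (by omega)
  have hcU : ∀ i, c i ≠ Col.U := by
    intro i hi
    have : 0 < cnt c Col.U := Finset.card_pos.2 ⟨i, by simp [hi]⟩
    omega
  have hcD : ∀ i, c i ≠ Col.D := by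
    intro i hi
    have : 0 < cnt c Col.D := Finset.card_pos.2 ⟨i, by simp [hi]⟩
    omega
  have hU := cnt_update c e Col.R Col.U
  have hR := cnt_update c e Col.R Col.R
  simp [he] at hU hR
  set cR := Function.update c e Col.R with hcR
  set S : Finset ι := univ.filter (fun i => cR i = Col.R) with hS
  set cU : ι → Col := fun i => if i ∈ S then Col.U else Col.F with hcUdef
  have hSc : S.card = r + 1 := by
    have : S.card = cnt cR Col.R := rfl
    omega
  have hcRU : ∀ i, cR i ≠ Col.U := by
    intro i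
    rw [hcR]
    by_cases hi : i = e
    · subst hi; simp
    · rw [Function.update_of_ne hi]; exact hcU i
  have hcUU : cnt cU Col.U = r + 1 := by
    rw [← hSc]
    unfold cnt
    congr 1
    ext i
    simp only [Finset.mem_filter, Finset.mem_univ, true_and, hcUdef]
    by_cases hi : i ∈ S <;> simp [hi]
  have hcUR : cnt cU Col.R = 0 := by
    unfold cnt
    rw [Finset.card_eq_zero, Finset.filter_eq_empty_iff]
    intro i _
    simp only [hcUdef]
    by_cases hi : i ∈ S <;> simp [hi]
  have hobsU : ∀ (g : V ι → ZMod 2) (a : V ι), obs cU g a = ∑ y ∈ cube S a, g y := by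
    intro g a
    unfold obs
    apply Finset.sum_congr _ (fun _ _ => rfl)
    ext y
    rw [mem_cube]
    simp only [Finset.mem_filter, Finset.mem_univ, true_and]
    apply forall_congr'
    intro i
    simp only [hcUdef]
    by_cases hi : i ∈ S <;> simp [hi, ok]
  have hdet : ∀ f g : V ι → ZMod 2, IsBent f → IsBent g → obs cR f = obs cR g →
      ∀ a, obs cU (dualf h f) a = obs cU (dualf h g) a := by
    intro f g hf hg hfg a
    rw [hobsU, hobsU]
    apply dual_det hn hf hg
    intro x hx
    have hx' : (fun i => if cR i = Col.R then 0 else x i) = x := by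
      ext i
      by_cases hi : cR i = Col.R
      · have : i ∈ S := by simp [hS, hi]
        have := (mem_cube.1 hx) i (by simpa using this)
        simp [hi, this]
      · simp [hi]
    have := congrFun hfg x
    rw [obs_noU cR hcRU, obs_noU cR hcRU, hx'] at this
    exact this
  have hsub := ent_submod (fun f : B ι => obs cR f.1) (fun f : B ι => obs cR (transEquiv e f).1)
    (fun f : B ι => obs c f.1) (fun f : B ι => obs cU (dualEquiv hn f).1)
    (by
      intro f g hX hY
      ext x
      by_cases hxe : x e = 0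
      · have := congrFun hX x
        rw [hcR, obs_update_R c e (Or.inl he), obs_update_R c e (Or.inl he)] at this
        have hup : Function.update x e 0 = x := by
          rw [← hxe, Function.update_eq_self]
        rwa [hup] at this
      · have hx1 := zmod2_ne_zero hxe
        have := congrFun hY x
        change obs cR (trans e f.1) x = obs cR (trans e g.1) x at this
        rw [hcR, obs_update_R c e (Or.inl he), obs_update_R c e (Or.inl he),
          obs_trans c e (Or.inl he), obs_trans c e (Or.inl he)] at this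
        have hup : Function.update x e 0 + Pi.single e 1 = x := by
          ext i
          by_cases hi : i = e
          · subst hi; simp [hx1]
          · simp [hi]
        rwa [hup] at this)
    (by
      intro f g hX
      ext a
      exact hdet f.1 g.1 f.2 g.2 hX a)
    (by
      intro f g hY
      ext a
      have h5 := hdet (trans e f.1) (trans e g.1) (isBent_trans f.2 e) (isBent_trans g.2 e) hY a
      have h6 : ∀ f : V ι → ZMod 2, IsBent f → obs cU (dualf h (trans e f)) a
          = obs cU (dualf h f) a + obs cU (fun y => y e) a := by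
        intro f hf
        rw [← obs_add]
        congr 1
        ext y
        exact dualf_trans hn hf e y
      rw [h6 f.1 f.2, h6 g.1 g.2] at h5
      exact add_right_cancel h5)
  have hY : ent (fun f : B ι => obs cR (transEquiv e f).1) = ent (fun f : B ι => obs cR f.1) :=
    ent_comp_equiv (fun f : B ι => obs cR f.1) (transEquiv e)
  have hQ : ent (fun f : B ι => obs cU (dualEquiv hn f).1) = ent (fun f : B ι => obs cU f.1) :=
    ent_comp_equiv (fun f : B ι => obs cU f.1) (dualEquiv hn)
  rw [hY, hQ] at hsub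
  rw [← Zv_eq c h1 h3, ← Zv_eq cU hcUU hcUR, ← Zv_eq cR (show _ = 0 by omega)
    (show _ = r + 1 by omega)]
  unfold entZ
  linarith

end Pool.Agent.Helper80Bent
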