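import Pool.Agent.Helper80_Bent.Entropy
import Pool.Agent.Helper80_Bent.Bent

/-!
Observables attached to colourings of the coordinates: a coordinate is free (`F`),
free and marked (`D`), restricted to zero (`R`), or differentiated (`U`).
-/

set_option autoImplicit false
set_option linter.unusedSectionVars false

namespace Pool.Agent.Helper80Bent

open Finset

/-- Colours of coordinates. -/
inductive Col
  | F | D | R | U
  deriving DecidableEq

/-- The local condition on `b` given `a`. -/
def ok : Col → ZMod 2 → ZMod 2 → Prop
  | Col.F, a, b => b = a
  | Col.D, a, b => b = a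
  | Col.R, _, b => b = 0
  | Col.U, _, _ => True

instance (k : Col) (a b : ZMod 2) : Decidable (ok k a b) := by
  cases k <;> unfold ok <;> infer_instance

variable {ι : Type*} [Fintype ι] [DecidableEq ι]

/-- The observable of a colouring. -/
def obs (c : ι → Col) (f : V ι → ZMod 2) (x : V ι) : ZMod 2 :=
  ∑ y ∈ univ.filter (fun y : V ι => ∀ i, ok (c i) (x i) (y i)), f y

lemma obs_add (c : ι → Col) (f g : V ι → ZMod 2) (x : V ι) :
    obs c (fun y => f y + g y) x = obs c f x + obs c g x := by
  unfold obs
  rw [Finset.sum_add_distrib]

lemma obs_update_U (c : ι → Col) (e : ι) (he : c e = Col.F ∨ c e = Col.D) (f : V ι → ZMod 2)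
    (x : V ι) :
    obs (Function.update c e Col.U) f x = obs c f x + obs c f (x + Pi.single e 1) := by
  unfold obs
  rw [Finset.sum_filter, Finset.sum_filter, Finset.sum_filter, ← Finset.sum_add_distrib]
  apply Finset.sum_congr rfl
  intro y _
  have hce : ∀ a b, ok (c e) a b ↔ b = a := by
    intro a b
    rcases he with he | he <;> rw [he] <;> rfl
  have h1 : (∀ i, ok (Function.update c e Col.U i) (x i) (y i)) ↔
      (∀ i, i ≠ e → ok (c i) (x i) (y i)) := by
    constructor
    · intro h i hi
      have := h i
      rwa [Function.update_of_ne hi] at this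
    · intro h i
      by_cases hi : i = e
      · subst hi
        rw [Function.update_self]
        trivial
      · rw [Function.update_of_ne hi]
        exact h i hi
  have h2 : (∀ i, ok (c i) (x i) (y i)) ↔ (∀ i, i ≠ e → ok (c i) (x i) (y i)) ∧ y e = x e := by
    constructor
    · intro h
      exact ⟨fun i _ => h i, (hce _ _).1 (h e)⟩
    · rintro ⟨h, h'⟩ i
      by_cases hi : i = e
      · subst hi
        exact (hce _ _).2 h'
      · exact h i hi
  have h3 : (∀ i, ok (c i) ((x + Pi.single e 1 : V ι) i) (y i)) ↔
      (∀ i, i ≠ e → ok (c i) (x i) (y i)) ∧ y e = x e + 1 := by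
    constructor
    · intro h
      refine ⟨fun i hi => ?_, ?_⟩
      · have := h i
        simpa [hi] using this
      · have := (hce _ _).1 (h e)
        simpa using this
    · rintro ⟨h, h'⟩ i
      by_cases hi : i = e
      · subst hi
        rw [hce]
        simpa using h'
      · have := h i hi
        simpa [hi] using this
  simp only [h1, h2, h3]
  by_cases hr : ∀ i, i ≠ e → ok (c i) (x i) (y i)
  · have hd : y e = x e ∨ y e = x e + 1 := by
      generalize y e = p
      generalize x e = q
      revert p q
      decide
    rw [if_pos hr]
    rcases hd with hd | hd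
    · rw [if_pos ⟨hr, hd⟩, if_neg, add_zero]
      rintro ⟨_, h⟩
      rw [hd] at h
      exact zmod2_add_one_ne (x e) h.symm
    · rw [if_neg, if_pos ⟨hr, hd⟩, zero_add]
      rintro ⟨_, h⟩
      rw [hd] at h
      exact zmod2_add_one_ne (x e) h
  · rw [if_neg hr, if_neg (fun h => hr h.1), if_neg (fun h => hr h.1), add_zero]

lemma obs_update_R (c : ι → Col) (e : ι) (he : c e = Col.F ∨ c e = Col.D) (f : V ι → ZMod 2)
    (x : V ι) :
    obs (Function.update c e Col.R) f x = obs c f (Function.update x e 0) := by
  unfold obs
  apply Finset.sum_congr _ (fun _ _ => rfl)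
  ext y
  simp only [Finset.mem_filter, Finset.mem_univ, true_and]
  apply forall_congr'
  intro i
  by_cases hi : i = e
  · subst hi
    rw [Function.update_self, Function.update_self]
    rcases he with he | he <;> rw [he] <;> rfl
  · rw [Function.update_of_ne hi, Function.update_of_ne hi]

lemma obs_congr_x (c : ι → Col) (f : V ι → ZMod 2) (x x' : V ι)
    (h : ∀ i, (c i = Col.F ∨ c i = Col.D) → x i = x' i) : obs c f x = obs c f x' := by
  unfold obs
  apply Finset.sum_congr _ (fun _ _ => rfl)
  ext y
  simp only [Finset.mem_filter, Finset.mem_univ, true_and]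
  apply forall_congr'
  intro i
  have := h i
  cases hc : c i <;> simp_all [ok]

/-- Forget the marks. -/
def DF (c : ι → Col) : ι → Col := fun i => if c i = Col.D then Col.F else c i

/-- Restrict the marked coordinates. -/
def DR (c : ι → Col) : ι → Col := fun i => if c i = Col.D then Col.R else c i

lemma obs_congr_c (c c' : ι → Col) (h : ∀ i, c i = c' i ∨ ((c i = Col.F ∨ c i = Col.D) ∧
    (c' i = Col.F ∨ c' i = Col.D))) (f : V ι → ZMod 2) (x : V ι) : obs c f x = obs c' f x := by
  unfold obs
  apply Finset.sum_congr _ (fun _ _ => rfl)
  ext y
  simp only [Finset.mem_filter, Finset.mem_univ, true_and]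
  apply forall_congr'
  intro i
  rcases h i with h | ⟨h | h, h' | h'⟩ <;> simp [h, ok] <;> simp [h', ok]

lemma obs_DF (c : ι → Col) (f : V ι → ZMod 2) (x : V ι) : obs (DF c) f x = obs c f x := by
  apply obs_congr_c
  intro i
  unfold DF
  by_cases h : c i = Col.D
  · right; simp [h]
  · left; simp [h]

lemma obs_DR (c : ι → Col) (f : V ι → ZMod 2) (x : V ι) :
    obs (DR c) f x = obs c f (fun i => if c i = Col.D then 0 else x i) := by
  unfold obs
  apply Finset.sum_congr _ (fun _ _ => rfl)
  ext y
  simp only [Finset.mem_filter, Finset.mem_univ, true_and]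
  apply forall_congr'
  intro i
  unfold DR
  by_cases h : c i = Col.D
  · simp [h, ok]
  · simp [h]

lemma obs_trans (c : ι → Col) (e : ι) (he : c e = Col.F ∨ c e = Col.D) (f : V ι → ZMod 2)
    (x : V ι) : obs c (trans e f) x = obs c f (x + Pi.single e 1) := by
  unfold obs
  rw [Finset.sum_filter, Finset.sum_filter, ← Equiv.sum_comp (addE e)]
  apply Finset.sum_congr rfl
  intro y _
  have h1 : (∀ i, ok (c i) (x i) ((addE e y) i)) ↔
      ∀ i, ok (c i) ((x + Pi.single e 1 : V ι) i) (y i) := by
    apply forall_congr'
    intro i
    rw [addE_apply]
    by_cases hi : i = e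
    · subst hi
      have hce : ∀ a b, ok (c i) a b ↔ b = a := by
        intro a b
        rcases he with he | he <;> rw [he] <;> rfl
      rw [hce, hce]
      simp only [Pi.add_apply, Pi.single_eq_same]
      generalize y i = p
      generalize x i = q
      revert p q
      decide
    · simp [hi]
  simp only [h1]
  congr 1
  rw [addE_apply]
  unfold trans
  rw [single_add_single]

lemma obs_permf (c : ι → Col) (σ : Equiv.Perm ι) (f : V ι → ZMod 2) (x : V ι) :
    obs c (permf σ f) x = obs (c ∘ σ) f (x ∘ σ) := by
  unfold obs
  rw [Finset.sum_filter, Finset.sum_filter, ← Equiv.sum_comp (precomp σ)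
    (fun y => if ∀ i, ok ((c ∘ σ) i) ((x ∘ σ) i) (y i) then f y else 0)]
  apply Finset.sum_congr rfl
  intro y _
  rw [precomp_apply]
  have h1 : (∀ i, ok (c i) (x i) (y i)) ↔ ∀ i, ok ((c ∘ σ) i) ((x ∘ σ) i) ((y ∘ σ) i) :=
    ⟨fun h i => h (σ i), fun h i => by
      have := h (σ.symm i)
      simpa using this⟩
  simp only [h1]
  rfl

/-- The observable formed by the derivatives in the marked directions. -/
def wobs (c : ι → Col) (f : V ι → ZMod 2) (e : ι) (x : V ι) : ZMod 2 :=
  if c e = Col.D then obs (Function.update c e Col.U) f x else 0

lemma wobs_permf (c : ι → Col) (σ : Equiv.Perm ι) (f : V ι → ZMod 2) (e : ι) (x : V ι) :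
    wobs c (permf σ f) (σ e) x = wobs (c ∘ σ) f e (x ∘ σ) := by
  unfold wobs
  rw [obs_permf]
  have : Function.update c (σ e) Col.U ∘ σ = Function.update (c ∘ σ) e Col.U := by
    ext i
    by_cases hi : i = e
    · subst hi; simp
    · have : σ i ≠ σ e := fun h => hi (σ.injective h)
      simp [Function.comp, hi]
  rw [this]
  rfl

/-! ### Determination lemmas -/

/-- `obs c` is determined by `obs (DR c)` and `wobs c`. -/
lemma det_ZW (c : ι → Col) (f g : V ι → ZMod 2) (h1 : wobs c f = wobs c g)
    (h2 : obs (DR c) f = obs (DR c) g) : obs c f = obs c g := by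
  have key : ∀ (m : ℕ) (x : V ι), (univ.filter (fun i => c i = Col.D ∧ x i ≠ 0)).card = m →
      obs c f x = obs c g x := by
    intro m
    induction m using Nat.strong_induction_on with
    | _ m ih =>
      intro x hx
      by_cases h0 : ∃ e, c e = Col.D ∧ x e ≠ 0
      · obtain ⟨e, he, hxe⟩ := h0
        have hw := congrFun (congrFun h1 e) x
        unfold wobs at hw
        rw [if_pos he, if_pos he, obs_update_U c e (Or.inr he), obs_update_U c e (Or.inr he)] at hw
        have hlt : (univ.filter (fun i => c i = Col.D ∧ (x + Pi.single e 1 : V ι) i ≠ 0)).card < m := by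
          rw [← hx]
          apply Finset.card_lt_card
          rw [Finset.ssubset_iff_of_subset]
          · refine ⟨e, by simp [he, hxe], ?_⟩
            simp only [Finset.mem_filter, Finset.mem_univ, true_and, not_and, not_not]
            intro _
            rw [Pi.add_apply, Pi.single_eq_same, zmod2_ne_zero hxe]
            decide
          · intro i hi
            simp only [Finset.mem_filter, Finset.mem_univ, true_and] at *
            refine ⟨hi.1, ?_⟩
            have hie : i ≠ e := by
              rintro rfl
              apply hi.2
              rw [Pi.add_apply, Pi.single_eq_same, zmod2_ne_zero hxe]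
              decide
            have := hi.2
            simpa [hie] using this
        have hih := ih _ hlt (x + Pi.single e 1) rfl
        rw [hih] at hw
        exact add_right_cancel hw
      · push Not at h0
        have h3 := congrFun h2 x
        rw [obs_DR, obs_DR] at h3
        have hxx : (fun i => if c i = Col.D then 0 else x i) = x := by
          ext i
          by_cases hi : c i = Col.D
          · simp [hi, h0 i hi]
          · simp [hi]
        rw [hxx] at h3
        exact h3
  ext x
  exact key _ x rfl

/-- `wobs c` is determined by `obs c`. -/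
lemma det_WleZ (c : ι → Col) (f g : V ι → ZMod 2) (h : obs c f = obs c g) :
    wobs c f = wobs c g := by
  ext e x
  unfold wobs
  by_cases he : c e = Col.D
  · rw [if_pos he, if_pos he, obs_update_U c e (Or.inr he), obs_update_U c e (Or.inr he), h]
  · rw [if_neg he, if_neg he]

lemma det_U (c : ι → Col) (e : ι) (he : c e = Col.F ∨ c e = Col.D) (f g : V ι → ZMod 2)
    (h : obs c f = obs c g) :
    obs (Function.update c e Col.U) f = obs (Function.update c e Col.U) g := by
  ext x
  rw [obs_update_U c e he, obs_update_U c e he, h]

lemma det_R (c : ι → Col) (e : ι) (he : c e = Col.F ∨ c e = Col.D) (f g : V ι → ZMod 2)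
    (h : obs c f = obs c g) :
    obs (Function.update c e Col.R) f = obs (Function.update c e Col.R) g := by
  ext x
  rw [obs_update_R c e he, obs_update_R c e he, h]

/-- `wobs (update c e R)` is determined by `wobs c` when `c e = F`. -/
lemma det_WR (c : ι → Col) (e : ι) (he : c e = Col.F) (f g : V ι → ZMod 2)
    (h : wobs c f = wobs c g) :
    wobs (Function.update c e Col.R) f = wobs (Function.update c e Col.R) g := by
  ext i x
  have hw := fun x => congrFun (congrFun h i) x
  unfold wobs at *
  by_cases hi : i = e
  · subst hi; simp
  · rw [Function.update_of_ne hi]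
    by_cases hD : c i = Col.D
    · simp only [if_pos hD] at *
      rw [Function.update_comm (Ne.symm hi), obs_update_R _ e, obs_update_R _ e, hw]
      · left; rw [Function.update_of_ne (Ne.symm hi)]; exact he
      · left; rw [Function.update_of_ne (Ne.symm hi)]; exact he
    · rw [if_neg hD, if_neg hD]

/-- `wobs (update c e U)` is determined by `wobs (update c e F)` when `c e = D`. -/
lemma det_WU (c : ι → Col) (e : ι) (f g : V ι → ZMod 2)
    (h : wobs (Function.update c e Col.F) f = wobs (Function.update c e Col.F) g) :
    wobs (Function.update c e Col.U) f = wobs (Function.update c e Col.U) g := by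
  ext i x
  have hw := fun x => congrFun (congrFun h i) x
  unfold wobs at *
  by_cases hi : i = e
  · subst hi; simp
  · rw [Function.update_of_ne hi] at *
    by_cases hD : c i = Col.D
    · simp only [if_pos hD] at *
      have e1 : Function.update (Function.update c e Col.U) i Col.U
          = Function.update (Function.update (Function.update c e Col.F) i Col.U) e Col.U := by
        rw [Function.update_comm (Ne.symm hi), Function.update_comm (Ne.symm hi),
          Function.update_idem]
      rw [e1, obs_update_U _ e, obs_update_U _ e, hw, hw]
      · left; rw [Function.update_of_ne (Ne.symm hi), Function.update_self]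
      · left; rw [Function.update_of_ne (Ne.symm hi), Function.update_self]
    · rw [if_neg hD, if_neg hD]

/-- `wobs (update c e U)` is determined by `obs (update c e U)`. -/
lemma det_WU' (c : ι → Col) (e : ι) (f g : V ι → ZMod 2)
    (h : obs (Function.update c e Col.U) f = obs (Function.update c e Col.U) g) :
    wobs (Function.update c e Col.U) f = wobs (Function.update c e Col.U) g :=
  det_WleZ _ f g h

/-- `wobs c` is determined by `wobs (update c e F)` and `obs (update c e U)`, when `c e = D`. -/
lemma det_Wsub (c : ι → Col) (e : ι) (he : c e = Col.D) (f g : V ι → ZMod 2)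
    (h1 : wobs (Function.update c e Col.F) f = wobs (Function.update c e Col.F) g)
    (h2 : obs (Function.update c e Col.U) f = obs (Function.update c e Col.U) g) :
    wobs c f = wobs c g := by
  ext i x
  have hw := fun x => congrFun (congrFun h1 i) x
  unfold wobs at *
  by_cases hi : i = e
  · subst hi
    rw [h2]
  · by_cases hD : c i = Col.D
    · simp only [Function.update_of_ne hi, if_pos hD] at *
      have e2 : ∀ f : V ι → ZMod 2, obs (Function.update c i Col.U) f x
          = obs (Function.update (Function.update c e Col.F) i Col.U) f x := by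
        intro f
        apply obs_congr_c
        intro k
        by_cases hk : k = i
        · subst hk; left; simp
        · rw [Function.update_of_ne hk, Function.update_of_ne hk]
          by_cases hke : k = e
          · subst hke
            right
            exact ⟨Or.inr he, by simp⟩
          · left
            rw [Function.update_of_ne hke]
      rw [e2, e2, hw]
    · rw [if_neg hD, if_neg hD]

end Pool.Agent.Helper80Bent
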